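import Mathlib

/-!
Binary strings as numbers, bit masks as finite sets, and primitive recursiveness of the
operations used.
-/

namespace Pool.Agent.LibRandTT

open Primrec

/-! ### helper closure lemmas -/

section Helpers

variable {α β σ : Type} [Primcodable α] [Primcodable β] [Primcodable σ]

lemma PP.forall_mem {L : α → List β} {p : α → β → Prop} (hL : Primrec L) (hp : PrimrecRel p) :
    PrimrecPred fun a => ∀ b ∈ L a, p a b :=
  (PrimrecRel.forall_mem_list (R := fun b a => p a b) hp.swap).comp hL Primrec.id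

lemma PP.exists_mem {L : α → List β} {p : α → β → Prop} (hL : Primrec L) (hp : PrimrecRel p) :
    PrimrecPred fun a => ∃ b ∈ L a, p a b :=
  (PrimrecRel.exists_mem_list (R := fun b a => p a b) hp.swap).comp hL Primrec.id

lemma PP.forall_lt {f : α → ℕ} {p : α → ℕ → Prop} (hf : Primrec f) (hp : PrimrecRel p) :
    PrimrecPred fun a => ∀ i < f a, p a i :=
  (PP.forall_mem (Primrec.list_range.comp hf) hp).of_eq (by simp)

lemma PP.exists_lt {f : α → ℕ} {p : α → ℕ → Prop} (hf : Primrec f) (hp : PrimrecRel p) :
    PrimrecPred fun a => ∃ i < f a, p a i :=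
  (PP.exists_mem (Primrec.list_range.comp hf) hp).of_eq (by simp)

lemma PP.imp {p q : α → Prop} (hp : PrimrecPred p) (hq : PrimrecPred q) :
    PrimrecPred fun a => p a → q a :=
  (hp.not.or hq).of_eq (fun a => by tauto)

lemma PP.filter {L : α → List β} {p : α → β → Prop} [∀ a, DecidablePred (p a)]
    (hL : Primrec L) (hp : PrimrecRel p) :
    Primrec fun a => (L a).filter (fun b => decide (p a b)) := by
  have := (PrimrecRel.listFilter (R := fun b a => p a b) hp.swap).comp hL Primrec.id
  exact this

lemma primrec_pow : Primrec₂ (fun a b : ℕ => a ^ b) :=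
  Primrec₂.unpaired'.1 Nat.Primrec.pow

lemma primrec_pow2 {f : α → ℕ} (hf : Primrec f) : Primrec fun a => 2 ^ f a :=
  primrec_pow.comp (Primrec.const 2) hf

lemma primrec_testBit : Primrec₂ (fun a b : ℕ => a.testBit b) := by
  have h : PrimrecPred (fun p : ℕ × ℕ => p.1 / 2 ^ p.2 % 2 = 1) :=
    PrimrecRel.comp (R := fun a b : ℕ => a = b) Primrec.eq
      (Primrec.nat_mod.comp (Primrec.nat_div.comp Primrec.fst (primrec_pow2 Primrec.snd))
        (Primrec.const 2)) (Primrec.const 1)
  refine h.decide.of_eq fun p => ?_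
  exact Nat.testBit_eq_decide_div_mod_eq.symm

lemma PP.testBit {f g : α → ℕ} (hf : Primrec f) (hg : Primrec g) :
    PrimrecPred fun a => (f a).testBit (g a) = true :=
  PrimrecRel.comp (R := fun a b : Bool => a = b) Primrec.eq (primrec_testBit.comp hf hg)
    (Primrec.const true)

lemma PP.lt {f g : α → ℕ} (hf : Primrec f) (hg : Primrec g) :
    PrimrecPred fun a => f a < g a := PrimrecRel.comp (R := fun a b : ℕ => a < b) Primrec.nat_lt hf hg

lemma PP.le {f g : α → ℕ} (hf : Primrec f) (hg : Primrec g) :
    PrimrecPred fun a => f a ≤ g a := PrimrecRel.comp (R := fun a b : ℕ => a ≤ b) Primrec.nat_le hf hg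

lemma PP.eq {f g : α → β} (hf : Primrec f) (hg : Primrec g) :
    PrimrecPred fun a => f a = g a := PrimrecRel.comp (R := fun a b : β => a = b) Primrec.eq hf hg

end Helpers

/-! ### strings and numbers -/

/-- number of a string: the bits (least significant first) followed by a leading one -/
def num (l : List Bool) : ℕ := l.foldr Nat.bit 1

@[simp] lemma num_nil : num [] = 1 := rfl
@[simp] lemma num_cons (b : Bool) (l : List Bool) : num (b :: l) = Nat.bit b (num l) := rfl

lemma num_bounds (l : List Bool) : 2 ^ l.length ≤ num l ∧ num l < 2 ^ (l.length + 1) := by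
  induction l with
  | nil => simp
  | cons b l ih =>
    rw [num_cons, List.length_cons, Nat.bit_val]
    have e1 : 2 ^ (l.length + 1) = 2 * 2 ^ l.length := by ring
    have e2 : 2 ^ (l.length + 1 + 1) = 2 * 2 ^ (l.length + 1) := by ring
    cases b <;> simp <;> omega

lemma num_pos (l : List Bool) : 0 < num l :=
  lt_of_lt_of_le (by positivity) (num_bounds l).1

lemma log_num (l : List Bool) : Nat.log 2 (num l) = l.length :=
  (Nat.log_eq_iff (Or.inr ⟨by norm_num, (num_pos l).ne'⟩)).2 (num_bounds l)

/-- string of a number -/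
def str (i : ℕ) : List Bool := (List.range (Nat.log 2 i)).map (fun j => i.testBit j)

lemma str_length (i : ℕ) : (str i).length = Nat.log 2 i := by simp [str]

lemma str_bit (b : Bool) {n : ℕ} (hn : n ≠ 0) : str (Nat.bit b n) = b :: str n := by
  have h : Nat.log 2 (Nat.bit b n) = Nat.log 2 n + 1 := by
    rw [Nat.log_eq_iff (Or.inr ⟨by norm_num, by simp [hn]⟩)]
    have h1 : 2 ^ Nat.log 2 n ≤ n := Nat.pow_log_le_self 2 hn
    have h2 : n < 2 ^ (Nat.log 2 n + 1) := Nat.lt_pow_succ_log_self (by norm_num) n
    rw [Nat.bit_val]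
    have e1 : 2 ^ (Nat.log 2 n + 1) = 2 * 2 ^ Nat.log 2 n := by ring
    have e2 : 2 ^ (Nat.log 2 n + 1 + 1) = 2 * 2 ^ (Nat.log 2 n + 1) := by ring
    cases b <;> simp <;> omega
  unfold str
  rw [h, List.range_succ_eq_map]
  simp [Nat.testBit_bit_succ, Function.comp_def]

@[simp] lemma str_num (l : List Bool) : str (num l) = l := by
  induction l with
  | nil => simp [str]
  | cons b l ih => rw [num_cons, str_bit _ (num_pos l).ne', ih]

lemma num_injective : Function.Injective num := fun a b h => by
  rw [← str_num a, h, str_num]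

lemma num_str {i : ℕ} (hi : i ≠ 0) : num (str i) = i := by
  induction i using Nat.binaryRec with
  | zero => exact absurd rfl hi
  | bit b n ih =>
    by_cases hn : n = 0
    · subst hn
      cases b
      · simp at hi
      · simp [str]
    · rw [str_bit b hn, num_cons, ih hn]

lemma primrec_num : Primrec num := by
  have hbit : Primrec₂ Nat.bit := by
    have : Primrec (fun p : Bool × ℕ => cond p.1 (2 * p.2 + 1) (2 * p.2)) :=
      Primrec.cond Primrec.fst
        (Primrec.succ.comp (Primrec.nat_mul.comp (Primrec.const 2) Primrec.snd))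
        (Primrec.nat_mul.comp (Primrec.const 2) Primrec.snd)
    refine this.of_eq fun p => ?_
    rcases p with ⟨b, n⟩
    cases b <;> simp [Nat.bit_val]
  have := Primrec.list_foldr (α := List Bool) (β := Bool) (σ := ℕ) (f := fun l => l)
    (g := fun _ => 1) (h := fun _ p => Nat.bit p.1 p.2) Primrec.id (Primrec.const 1)
    (hbit.comp (Primrec.fst.comp Primrec.snd) (Primrec.snd.comp Primrec.snd)).to₂
  exact this

lemma primrec_log : Primrec (fun i : ℕ => Nat.log 2 i) := by
  have h : Primrec (fun i : ℕ => ((List.range i).filter (fun j => decide (2 ^ (j + 1) ≤ i))).length) :=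
    Primrec.list_length.comp (PP.filter (p := fun i j : ℕ => 2 ^ (j + 1) ≤ i) Primrec.list_range
      (PP.le (primrec_pow2 (Primrec.succ.comp Primrec.snd)) Primrec.fst))
  refine h.of_eq fun i => ?_
  have : (List.range i).filter (fun j => decide (2 ^ (j + 1) ≤ i)) = List.range (Nat.log 2 i) := by
    rcases Nat.eq_zero_or_pos i with hi | hi
    · subst hi; simp
    have hlt : Nat.log 2 i ≤ i := Nat.log_le_self 2 i
    have hsplit : List.range i = List.range (Nat.log 2 i) ++
        (List.range (i - Nat.log 2 i)).map (Nat.log 2 i + ·) := by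
      rw [← List.range_add]
      congr 1
      omega
    rw [hsplit, List.filter_append]
    have h1 : (List.range (Nat.log 2 i)).filter (fun j => decide (2 ^ (j + 1) ≤ i)) =
        List.range (Nat.log 2 i) := by
      rw [List.filter_eq_self]
      intro j hj
      rw [List.mem_range] at hj
      rw [decide_eq_true_eq]
      calc 2 ^ (j + 1) ≤ 2 ^ Nat.log 2 i := Nat.pow_le_pow_right (by norm_num) hj
        _ ≤ i := Nat.pow_log_le_self 2 (by omega)
    have h2 : ((List.range (i - Nat.log 2 i)).map (Nat.log 2 i + ·)).filter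
        (fun j => decide (2 ^ (j + 1) ≤ i)) = [] := by
      rw [List.filter_eq_nil_iff]
      intro j hj
      rw [List.mem_map] at hj
      obtain ⟨k, -, rfl⟩ := hj
      rw [decide_eq_true_eq, not_le]
      calc i < 2 ^ (Nat.log 2 i + 1) := Nat.lt_pow_succ_log_self (by norm_num) i
        _ ≤ 2 ^ (Nat.log 2 i + k + 1) := Nat.pow_le_pow_right (by norm_num) (by omega)
    rw [h1, h2, List.append_nil]
  rw [this, List.length_range]

lemma primrec_str : Primrec str :=
  Primrec.list_map (f := fun i : ℕ => List.range (Nat.log 2 i)) (g := fun i j => i.testBit j)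
    (Primrec.list_range.comp primrec_log) primrec_testBit

/-! ### masks -/

/-- mask of the set of `i < K` with `p i` -/
def mask (p : ℕ → Bool) : ℕ → ℕ
  | 0 => 0
  | K + 1 => if p K then mask p K + 2 ^ K else mask p K

lemma mask_lt (p : ℕ → Bool) (K : ℕ) : mask p K < 2 ^ K := by
  induction K with
  | zero => simp [mask]
  | succ K ih =>
    rw [mask]
    have : 2 ^ (K + 1) = 2 ^ K + 2 ^ K := by ring
    split_ifs <;> omega

lemma testBit_mask (p : ℕ → Bool) (K i : ℕ) : (mask p K).testBit i = (decide (i < K) && p i) := by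
  induction K with
  | zero => simp [mask]
  | succ K ih =>
    rw [mask]
    have hlt := mask_lt p K
    split_ifs with h
    · rcases lt_trichotomy i K with hi | hi | hi
      · rw [add_comm, Nat.testBit_two_pow_add_gt hi, ih]
        simp [hi, Nat.lt_succ_of_lt hi]
      · subst hi
        rw [add_comm, Nat.testBit_two_pow_add_eq, ih]
        simp [h]
      · have h1 : mask p K + 2 ^ K < 2 ^ i := by
          calc mask p K + 2 ^ K < 2 ^ K + 2 ^ K := by omega
            _ = 2 ^ (K + 1) := by ring
            _ ≤ 2 ^ i := Nat.pow_le_pow_right (by norm_num) hi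
        rw [Nat.testBit_lt_two_pow h1]
        have : ¬ i < K + 1 := by omega
        simp [this]
    · rw [ih]
      rcases lt_trichotomy i K with hi | hi | hi
      · simp [hi, Nat.lt_succ_of_lt hi]
      · subst hi
        simp [h]
      · have h1 : ¬ i < K := by omega
        have h2 : ¬ i < K + 1 := by omega
        simp [h1, h2]

/-- the finite set of a mask -/
def bs (v : ℕ) : Finset ℕ := (Finset.range v).filter (fun i => v.testBit i = true)

@[simp] lemma mem_bs {v i : ℕ} : i ∈ bs v ↔ v.testBit i = true := by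
  unfold bs
  rw [Finset.mem_filter, Finset.mem_range]
  refine ⟨fun h => h.2, fun h => ⟨?_, h⟩⟩
  have h1 : 2 ^ i ≤ v := Nat.ge_two_pow_of_testBit h
  exact lt_of_lt_of_le Nat.lt_two_pow_self h1

/-- inclusion of masks -/
def sub (v w : ℕ) : Prop := ∀ i < v, v.testBit i = true → w.testBit i = true

lemma sub_iff {v w : ℕ} : sub v w ↔ bs v ⊆ bs w := by
  unfold sub
  constructor
  · intro h i hi
    have := hi
    unfold bs at this
    rw [Finset.mem_filter, Finset.mem_range] at this
    exact mem_bs.2 (h i this.1 this.2)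
  · intro h i _ hi
    exact mem_bs.1 (h (mem_bs.2 hi))

lemma sub_iff' {v w : ℕ} : sub v w ↔ ∀ i, v.testBit i = true → w.testBit i = true := by
  rw [sub_iff]
  exact ⟨fun h i hi => mem_bs.1 (h (mem_bs.2 hi)), fun h i hi => mem_bs.2 (h i (mem_bs.1 hi))⟩

lemma sub_refl (v : ℕ) : sub v v := sub_iff'.2 fun _ h => h

lemma sub_trans {u v w : ℕ} (h1 : sub u v) (h2 : sub v w) : sub u w :=
  sub_iff'.2 fun i h => sub_iff'.1 h2 i (sub_iff'.1 h1 i h)

lemma zero_sub (v : ℕ) : sub 0 v := sub_iff'.2 fun i h => by simp at h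

lemma eq_of_testBit {v w : ℕ} (h : ∀ i, v.testBit i = true ↔ w.testBit i = true) : v = w := by
  apply Nat.eq_of_testBit_eq
  intro i
  have := h i
  cases hv : v.testBit i <;> cases hw : w.testBit i <;> simp_all

lemma sub_antisymm {v w : ℕ} (h1 : sub v w) (h2 : sub w v) : v = w :=
  eq_of_testBit fun i => ⟨sub_iff'.1 h1 i, sub_iff'.1 h2 i⟩

lemma bs_injective : Function.Injective bs := fun v w h =>
  eq_of_testBit fun i => by rw [← mem_bs, ← mem_bs, h]

lemma bs_mask (S : Finset ℕ) (K : ℕ) (hS : ∀ i ∈ S, i < K) :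
    bs (mask (fun i => decide (i ∈ S)) K) = S := by
  ext i
  rw [mem_bs, testBit_mask]
  simp only [Bool.and_eq_true, decide_eq_true_eq]
  exact ⟨fun h => h.2, fun h => ⟨hS i h, h⟩⟩

lemma lt_two_pow_of_bits {v K : ℕ} (h : ∀ i, v.testBit i = true → i < K) : v < 2 ^ K := by
  apply Nat.lt_pow_two_of_testBit
  intro i hi
  by_contra hcon
  rw [Bool.not_eq_false] at hcon
  exact absurd (h i hcon) (by omega)

lemma lt_of_testBit_lt {v K i : ℕ} (hv : v < 2 ^ K) (h : v.testBit i = true) : i < K := by
  by_contra hcon
  have : v < 2 ^ i := lt_of_lt_of_le hv (Nat.pow_le_pow_right (by norm_num) (by omega))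
  rw [Nat.testBit_lt_two_pow this] at h
  exact absurd h (by simp)

lemma sub_le {v w : ℕ} (h : sub v w) : v ≤ w := by
  by_contra hcon
  have hlt : w < v := by omega
  obtain ⟨i, hi1, hi2, -⟩ := Nat.exists_most_significant_bit (n := v ^^^ w) (by
    intro h0
    have := Nat.xor_eq_zero_iff.1 h0
    omega) |>.imp fun i hi => (⟨hi.1, hi.2, trivial⟩ :
      (v ^^^ w).testBit i = true ∧ (∀ j, i < j → (v ^^^ w).testBit j = false) ∧ True)
  have hv : v.testBit i = false := by
    cases hvi : v.testBit i
    · rfl
    · have := sub_iff'.1 h i hvi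
      rw [Nat.testBit_xor, hvi, this] at hi1
      simp at hi1
  have hw : w.testBit i = true := by
    rw [Nat.testBit_xor, hv] at hi1
    simpa using hi1
  have : v < w := Nat.lt_of_testBit i hv hw (by
    intro j hj
    have := hi2 j hj
    rw [Nat.testBit_xor] at this
    simpa using this)
  omega

lemma primrecRel_sub : PrimrecRel sub := by
  unfold sub
  exact PP.forall_lt (α := ℕ × ℕ) (f := fun p => p.1)
    (p := fun p i => p.1.testBit i = true → p.2.testBit i = true) Primrec.fst
    (PP.imp (PP.testBit (Primrec.fst.comp Primrec.fst) Primrec.snd)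
      (PP.testBit (Primrec.snd.comp Primrec.fst) Primrec.snd))

lemma primrec_mask {α : Type} [Primcodable α] {K : α → ℕ} {p : α → ℕ → Bool} (hK : Primrec K)
    (hp : Primrec₂ p) : Primrec fun a => mask (p a) (K a) := by
  have h : Primrec fun a => (Nat.rec 0 (fun k acc => cond (p a k) (acc + 2 ^ k) acc) (K a) : ℕ) :=
    Primrec.nat_rec' (f := K) (g := fun _ => 0)
      (h := fun a q => cond (p a q.1) (q.2 + 2 ^ q.1) q.2) hK (Primrec.const 0)
      (Primrec.cond (hp.comp Primrec.fst (Primrec.fst.comp Primrec.snd))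
        (Primrec.nat_add.comp (Primrec.snd.comp Primrec.snd)
          (primrec_pow2 (Primrec.fst.comp Primrec.snd)))
        (Primrec.snd.comp Primrec.snd)).to₂
  refine h.of_eq fun a => ?_
  generalize K a = k
  induction k with
  | zero => rfl
  | succ k ih =>
    simp only [mask]
    rw [ih]
    cases p a k <;> simp

/-- number of elements of a mask on level `m` (strings of length `m`) -/
def cnt (v m : ℕ) : ℕ := (bs v ∩ Finset.Ico (2 ^ m) (2 ^ (m + 1))).card

lemma primrec_cnt : Primrec₂ cnt := by
  have h : Primrec (fun p : ℕ × ℕ => ((List.range (2 ^ (p.2 + 1))).filter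
      (fun i => decide (2 ^ p.2 ≤ i ∧ p.1.testBit i = true))).length) :=
    Primrec.list_length.comp (PP.filter (p := fun (p : ℕ × ℕ) i => 2 ^ p.2 ≤ i ∧ p.1.testBit i = true)
      (Primrec.list_range.comp (primrec_pow2 (Primrec.succ.comp Primrec.snd)))
      ((PP.le (primrec_pow2 (Primrec.snd.comp Primrec.fst)) Primrec.snd).and
        (PP.testBit (Primrec.fst.comp Primrec.fst) Primrec.snd)))
  refine h.of_eq fun p => ?_
  rcases p with ⟨v, m⟩
  simp only
  unfold cnt
  have hnd : ((List.range (2 ^ (m + 1))).filter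
      (fun i => decide (2 ^ m ≤ i ∧ v.testBit i = true))).Nodup :=
    List.Nodup.filter _ List.nodup_range
  rw [← List.toFinset_card_of_nodup hnd]
  congr 1
  ext i
  simp only [List.mem_toFinset, List.mem_filter, List.mem_range, decide_eq_true_eq,
    Finset.mem_inter, mem_bs, Finset.mem_Ico]
  tauto

end Pool.Agent.LibRandTT
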