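import Mathlib

/-!
Combinatorial core: a finite game between an environment (set `V`) and a builder (set `A`).
-/

namespace Pool.Agent.LibRandTT

/-- positive part squared -/
def phi (t : ℤ) : ℤ := (max t 0) ^ 2

lemma phi_nonneg (t : ℤ) : 0 ≤ phi t := by unfold phi; positivity

lemma phi_mono {s t : ℤ} (h : s ≤ t) : phi s ≤ phi t := by
  unfold phi
  have h1 : max s 0 ≤ max t 0 := max_le_max h le_rfl
  have h2 : 0 ≤ max s 0 := le_max_right _ _
  nlinarith

lemma phi_two {d0 d1 d2 q : ℤ} (hq : 0 ≤ q) (h : d1 + d2 ≤ 2 * d0) (h1 : d1 ≤ d0 + q)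
    (h2 : d2 ≤ d0 + q) : phi d1 + phi d2 ≤ 2 * phi d0 + 2 * q ^ 2 := by
  -- reduce to symmetric case
  have key : ∀ s : ℤ, 0 ≤ s → s ≤ q → phi (d0 + s) + phi (d0 - s) ≤ 2 * phi d0 + 2 * q ^ 2 := by
    intro s hs hsq
    unfold phi
    rcases le_or_gt 0 (d0 - s) with h0 | h0
    · rw [max_eq_left h0, max_eq_left (by linarith : (0:ℤ) ≤ d0 + s),
        max_eq_left (by linarith : (0:ℤ) ≤ d0)]
      nlinarith
    · rw [max_eq_right h0.le]
      rcases le_or_gt 0 d0 with h3 | h3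
      · rw [max_eq_left (by linarith : (0:ℤ) ≤ d0 + s), max_eq_left h3]
        nlinarith [sq_nonneg (d0 - s)]
      · rw [max_eq_right h3.le]
        have : max (d0 + s) 0 ≤ s := by
          apply max_le <;> linarith
        have h4 : 0 ≤ max (d0 + s) 0 := le_max_right _ _
        nlinarith
  rcases le_or_gt d1 d0 with h3 | h3
  · rcases le_or_gt d2 d0 with h4 | h4
    · have a := phi_mono h3
      have b := phi_mono h4
      nlinarith [sq_nonneg q]
    · have a := key (d2 - d0) (by linarith) (by linarith)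
      have e1 : d0 + (d2 - d0) = d2 := by ring
      rw [e1] at a
      have b : phi d1 ≤ phi (d0 - (d2 - d0)) := phi_mono (by linarith)
      linarith
  · have a := key (d1 - d0) (by linarith) (by linarith)
    have e1 : d0 + (d1 - d0) = d1 := by ring
    rw [e1] at a
    have b : phi d2 ≤ phi (d0 - (d1 - d0)) := phi_mono (by linarith)
    linarith

section Game

variable {α β ι : Type} [DecidableEq α]

/-- data of the finite game -/
structure GameData (α β ι : Type) where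
  U : Finset α
  Fr : Finset α
  M : Finset ι
  Lv : ι → Finset α
  c : ι → ℕ
  bV : ι → ℕ
  F : β → Finset α → Bool
  Q : β → Finset α
  q : ℕ
  κ : ℕ

variable (G : GameData α β ι)

/-- legal environment sets -/
def GameData.Legal (V : Finset α) : Prop :=
  V ⊆ G.U ∧ ∀ m ∈ G.M, (V ∩ G.Lv m).card ≤ G.bV m

/-- signed difference on a level -/
def GameData.D (V A : Finset α) (m : ι) : ℤ := ((A ∩ G.Lv m).card : ℤ) - ((V ∩ G.Lv m).card : ℤ)

/-- the potential -/
def GameData.Phi (V A : Finset α) : ℤ := ∑ m ∈ G.M, (G.c m : ℤ) * phi (G.D V A m)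

/-- corrected potential -/
def GameData.Psi (V A : Finset α) : ℤ := G.Phi V A - 4 * (G.κ : ℤ) * ((V ∩ G.Fr).card : ℤ)

/-- winning region of the game at one input `x` in role `r` with threshold `θ` -/
def GameData.R (x : β) (r : Bool) (θ : ℤ) (V A : Finset α) : Prop :=
  ∃ S : Set (Finset α × Finset α), (V, A) ∈ S ∧ ∀ p ∈ S,
    G.F x (p.1 ∪ p.2) ≠ r ∧ ∀ V', p.1 ⊂ V' → G.Legal V' →
      (G.Psi V' p.2 ≤ θ ∨ (V' ∩ G.Fr = p.1 ∩ G.Fr ∧
        ∃ A', p.2 ⊆ A' ∧ A' ⊆ p.2 ∪ G.Q x ∧ (V', A') ∈ S))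

variable {G}

lemma R_unfold {x : β} {r : Bool} {θ : ℤ} {V A : Finset α} :
    G.R x r θ V A ↔ (G.F x (V ∪ A) ≠ r ∧ ∀ V', V ⊂ V' → G.Legal V' →
      (G.Psi V' A ≤ θ ∨ (V' ∩ G.Fr = V ∩ G.Fr ∧
        ∃ A', A ⊆ A' ∧ A' ⊆ A ∪ G.Q x ∧ G.R x r θ V' A'))) := by
  constructor
  · rintro ⟨S, hS, hcl⟩
    refine ⟨(hcl _ hS).1, fun V' hV' hL => ?_⟩
    rcases (hcl _ hS).2 V' hV' hL with h | ⟨h1, A', h2, h3, h4⟩
    · exact Or.inl h
    · exact Or.inr ⟨h1, A', h2, h3, S, h4, hcl⟩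
  · rintro ⟨h1, h2⟩
    refine ⟨{(V, A)} ∪ {p | G.R x r θ p.1 p.2}, Or.inl rfl, ?_⟩
    rintro p (hp | hp)
    · rw [Set.mem_singleton_iff] at hp
      subst hp
      refine ⟨h1, fun V' hV' hL => ?_⟩
      rcases h2 V' hV' hL with h | ⟨h3, A', h4, h5, h6⟩
      · exact Or.inl h
      · exact Or.inr ⟨h3, A', h4, h5, Or.inr h6⟩
    · obtain ⟨S, hS, hcl⟩ := hp
      refine ⟨(hcl _ hS).1, fun V' hV' hL => ?_⟩
      rcases (hcl _ hS).2 V' hV' hL with h | ⟨h1, A', h2, h3, h4⟩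
      · exact Or.inl h
      · exact Or.inr ⟨h1, A', h2, h3, Or.inr ⟨S, h4, hcl⟩⟩

/-- structural assumptions -/
structure GameData.Ok (G : GameData α β ι) : Prop where
  κpos : 0 < G.κ
  κge : ∑ m ∈ G.M, G.c m * G.q ^ 2 ≤ G.κ
  supp : ∀ x N N', N ∩ (G.Fr ∪ G.Q x) = N' ∩ (G.Fr ∪ G.Q x) → G.F x N = G.F x N'
  disj : ∀ x, Disjoint (G.Q x) G.Fr
  qle : ∀ x, ∀ m ∈ G.M, (G.Q x ∩ G.Lv m).card ≤ G.q

lemma Phi_nonneg (V A : Finset α) : 0 ≤ G.Phi V A := by
  unfold GameData.Phi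
  exact Finset.sum_nonneg fun m _ => mul_nonneg (by positivity) (phi_nonneg _)

lemma card_inter_mono {A B C : Finset α} (h : A ⊆ B) : (A ∩ C).card ≤ (B ∩ C).card :=
  Finset.card_le_card (Finset.inter_subset_inter_right h)

lemma Psi_mono_A {V A A' : Finset α} (h : A ⊆ A') : G.Psi V A ≤ G.Psi V A' := by
  unfold GameData.Psi GameData.Phi
  have : ∑ m ∈ G.M, (G.c m : ℤ) * phi (G.D V A m) ≤ ∑ m ∈ G.M, (G.c m : ℤ) * phi (G.D V A' m) := by
    apply Finset.sum_le_sum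
    intro m _
    apply mul_le_mul_of_nonneg_left _ (by positivity)
    apply phi_mono
    unfold GameData.D
    have := card_inter_mono (C := G.Lv m) h
    have h2 : ((A ∩ G.Lv m).card : ℤ) ≤ ((A' ∩ G.Lv m).card : ℤ) := by exact_mod_cast this
    linarith
  linarith

lemma bool_aux {a b : Bool} (h : ¬ a = b) : a = !b := by
  revert h; cases a <;> cases b <;> simp

lemma agree_aux {V V' A1 V2 A2 Fr Q : Finset α}
    (hagree : (V ∪ A1) ∩ (Fr ∪ Q) = (V2 ∪ A2) ∩ (Fr ∪ Q)) (hfr : V' ∩ Fr = V ∩ Fr)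
    (h : V ⊆ V') :
    (V' ∪ A1) ∩ (Fr ∪ Q) = (V2 ∪ (A2 ∪ ((V' ∩ Q) \ (V2 ∪ A2)))) ∩ (Fr ∪ Q) := by
  ext y
  have h1 := Finset.ext_iff.1 hagree y
  have h2 := Finset.ext_iff.1 hfr y
  have h3 : y ∈ V → y ∈ V' := fun h' => h h'
  clear hagree hfr h
  simp only [Finset.mem_inter, Finset.mem_union, Finset.mem_sdiff] at h1 h2 ⊢
  by_cases a : y ∈ V' <;> by_cases b : y ∈ V <;> by_cases c : y ∈ Fr <;> by_cases d : y ∈ Q <;>
    by_cases e : y ∈ A1 <;> simp_all

/-- the self-play lemma -/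
lemma selfplay (hG : G.Ok) (x : β) (V0 A0 : Finset α) (θ : ℤ) (hθ : θ = G.Psi V0 A0 - G.κ) :
    ∀ n : ℕ, ∀ (b : Bool) (V1 A1 V2 A2 : Finset α),
      (G.U \ V1).card + (G.U \ V2).card ≤ n →
      G.Legal V1 → G.Legal V2 → V0 ⊆ V1 → V0 ⊆ V2 →
      V1 ∩ G.Fr = V0 ∩ G.Fr → V2 ∩ G.Fr = V0 ∩ G.Fr →
      A0 ⊆ A1 → A0 ⊆ A2 → A1 ⊆ A0 ∪ G.Q x → A2 ⊆ A0 ∪ G.Q x →
      (V1 ∪ A1) ∩ (G.Fr ∪ G.Q x) = (V2 ∪ A2) ∩ (G.Fr ∪ G.Q x) →
      (∀ m ∈ G.M, (A1 ∩ G.Lv m).card + (V0 ∩ G.Lv m).card ≤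
        (A0 ∩ G.Lv m).card + (V2 ∩ G.Lv m).card) →
      (∀ m ∈ G.M, (A2 ∩ G.Lv m).card + (V0 ∩ G.Lv m).card ≤
        (A0 ∩ G.Lv m).card + (V1 ∩ G.Lv m).card) →
      ¬ G.R x b θ V1 A1 → G.F x (V1 ∪ A1) = !b →
      (∀ A', A2 ⊆ A' → A' ⊆ A2 ∪ G.Q x → ¬ G.R x (!b) θ V2 A') →
      θ < G.Psi V2 A2 → False := by
  intro n
  induction n using Nat.strong_induction_on with
  | _ n ih =>
  intro b V1 A1 V2 A2 hn hL1 hL2 hV01 hV02 hF1 hF2 hA01 hA02 hAQ1 hAQ2 hagree hc1 hc2 hR1 hFb hother hΨ2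
  rw [R_unfold] at hR1
  push Not at hR1
  obtain ⟨V', hV', hL', hΨ', hrest⟩ := hR1 (by rw [hFb]; cases b <;> simp)
  -- new copied set
  have hVV' : V1 ⊆ V' := hV'.1
  by_cases hfr : V' ∩ G.Fr = V1 ∩ G.Fr
  · -- no restart
    have hrest' : ∀ A', A1 ⊆ A' → A' ⊆ A1 ∪ G.Q x → ¬ G.R x b θ V' A' := fun A' h1 h2 =>
      hrest hfr A' h1 h2
    set C : Finset α := (V' ∩ G.Q x) \ (V2 ∪ A2) with hC
    set A2' : Finset α := A2 ∪ C with hA2'
    have hCQ : C ⊆ G.Q x := by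
      intro y hy
      rw [hC, Finset.mem_sdiff, Finset.mem_inter] at hy
      exact hy.1.2
    have hA2sub : A2' ⊆ A2 ∪ G.Q x := Finset.union_subset_union_right hCQ
    have hA2sub0 : A2' ⊆ A0 ∪ G.Q x :=
      Finset.union_subset hAQ2 (hCQ.trans Finset.subset_union_right)
    have hCV : C ⊆ V' \ V1 := by
      intro y hy
      rw [hC, Finset.mem_sdiff, Finset.mem_inter] at hy
      rw [Finset.mem_sdiff]
      refine ⟨hy.1.1, fun hy1 => hy.2 ?_⟩
      have : y ∈ (V1 ∪ A1) ∩ (G.Fr ∪ G.Q x) := by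
        simp [hy1, hy.1.2]
      rw [hagree] at this
      exact (Finset.mem_inter.1 this).1
    have hagree' : (V' ∪ A1) ∩ (G.Fr ∪ G.Q x) = (V2 ∪ A2') ∩ (G.Fr ∪ G.Q x) := by
      rw [hA2', hC]
      exact agree_aux hagree hfr hVV'
    have hcopy : ∀ m ∈ G.M, (A2' ∩ G.Lv m).card + (V0 ∩ G.Lv m).card ≤
        (A0 ∩ G.Lv m).card + (V' ∩ G.Lv m).card := by
      intro m hm
      have h1 := hc2 m hm
      have h2 : (A2' ∩ G.Lv m).card ≤ (A2 ∩ G.Lv m).card + (C ∩ G.Lv m).card := by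
        rw [hA2', Finset.union_inter_distrib_right]
        exact Finset.card_union_le _ _
      have h3 : (C ∩ G.Lv m).card + (V1 ∩ G.Lv m).card ≤ (V' ∩ G.Lv m).card := by
        rw [← Finset.card_union_of_disjoint]
        · apply Finset.card_le_card
          intro y hy
          rw [Finset.mem_union, Finset.mem_inter, Finset.mem_inter] at hy
          rw [Finset.mem_inter]
          rcases hy with hy | hy
          · exact ⟨(Finset.mem_sdiff.1 (hCV hy.1)).1, hy.2⟩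
          · exact ⟨hVV' hy.1, hy.2⟩
        · rw [Finset.disjoint_left]
          intro y hy1 hy2
          exact (Finset.mem_sdiff.1 (hCV (Finset.mem_inter.1 hy1).1)).2 (Finset.mem_inter.1 hy2).1
      omega
    have hmeas : (G.U \ V').card < (G.U \ V1).card := by
      apply Finset.card_lt_card
      refine ⟨Finset.sdiff_subset_sdiff le_rfl hVV', fun h => hV'.2 fun y hy => ?_⟩
      by_contra hy1
      have := h (Finset.mem_sdiff.2 ⟨hL'.1 hy, hy1⟩)
      exact (Finset.mem_sdiff.1 this).2 hy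
    have hFr' : V' ∩ G.Fr = V0 ∩ G.Fr := hfr.trans hF1
    have hFeq : G.F x (V2 ∪ A2') = G.F x (V' ∪ A1) := (hG.supp x _ _ hagree').symm
    by_cases hcase : G.F x (V' ∪ A1) = b
    · -- environment has restored: swap roles
      have hb' : G.F x (V2 ∪ A2') = !(!b) := by rw [hFeq, hcase]; simp
      refine ih ((G.U \ V2).card + (G.U \ V').card) (by omega) (!b) V2 A2' V' A1 le_rfl hL2 hL'
        hV02 (hV01.trans hVV') hF2 hFr' (hA02.trans Finset.subset_union_left) hA01 hA2sub0 hAQ1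
        hagree'.symm hcopy ?_ ?_ hb' ?_ hΨ'
      · intro m hm
        have h1 := hc1 m hm
        exact h1
      · exact hother A2' Finset.subset_union_left hA2sub
      · intro A' h1 h2
        rw [Bool.not_not]
        exact hrest' A' h1 h2
    · -- not restored: same turn
      have hcase' : G.F x (V' ∪ A1) = !b := bool_aux hcase
      refine ih ((G.U \ V').card + (G.U \ V2).card) (by omega) b V' A1 V2 A2' le_rfl hL' hL2
        (hV01.trans hVV') hV02 hFr' hF2 hA01 (hA02.trans Finset.subset_union_left) hAQ1 hA2sub0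
        hagree' hc1 hcopy (hrest' A1 (Finset.Subset.refl _) Finset.subset_union_left) hcase' ?_ ?_
      · intro A' h1 h2
        apply hother A' (Finset.subset_union_left.trans h1)
        refine h2.trans ?_
        rw [hA2', Finset.union_assoc]
        exact Finset.union_subset_union_right (Finset.union_subset hCQ (Finset.Subset.refl _))
      · exact lt_of_lt_of_le hΨ2 (Psi_mono_A Finset.subset_union_left)
  · -- restart: contradiction by the potential
    have hlt : (V0 ∩ G.Fr).card + 1 ≤ (V' ∩ G.Fr).card := by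
      rw [← hF1]
      apply Finset.card_lt_card
      refine ⟨Finset.inter_subset_inter_right hVV', fun h => hfr ?_⟩
      exact Finset.Subset.antisymm h (Finset.inter_subset_inter_right hVV')
    have hsum : G.Phi V' A1 + G.Phi V2 A2 ≤ 2 * G.Phi V0 A0 + 2 * (G.κ : ℤ) := by
      unfold GameData.Phi
      have h1 : (∑ m ∈ G.M, (G.c m : ℤ) * phi (G.D V' A1 m)) +
          (∑ m ∈ G.M, (G.c m : ℤ) * phi (G.D V2 A2 m)) ≤
          ∑ m ∈ G.M, ((2 * ((G.c m : ℤ) * phi (G.D V0 A0 m))) +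
            2 * ((G.c m : ℤ) * (G.q : ℤ) ^ 2)) := by
        rw [← Finset.sum_add_distrib]
        apply Finset.sum_le_sum
        intro m hm
        have hq1 := hG.qle x m hm
        have e1 := hc1 m hm
        have e2 := hc2 m hm
        have e3 : (V1 ∩ G.Lv m).card ≤ (V' ∩ G.Lv m).card := card_inter_mono hVV'
        have e4 : (V0 ∩ G.Lv m).card ≤ (V' ∩ G.Lv m).card := card_inter_mono (hV01.trans hVV')
        have e5 : (V0 ∩ G.Lv m).card ≤ (V2 ∩ G.Lv m).card := card_inter_mono hV02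
        have e6 : (A1 ∩ G.Lv m).card ≤ (A0 ∩ G.Lv m).card + G.q := by
          calc (A1 ∩ G.Lv m).card ≤ ((A0 ∪ G.Q x) ∩ G.Lv m).card := card_inter_mono hAQ1
            _ ≤ (A0 ∩ G.Lv m).card + (G.Q x ∩ G.Lv m).card := by
                rw [Finset.union_inter_distrib_right]; exact Finset.card_union_le _ _
            _ ≤ _ := by omega
        have e7 : (A2 ∩ G.Lv m).card ≤ (A0 ∩ G.Lv m).card + G.q := by
          calc (A2 ∩ G.Lv m).card ≤ ((A0 ∪ G.Q x) ∩ G.Lv m).card := card_inter_mono hAQ2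
            _ ≤ (A0 ∩ G.Lv m).card + (G.Q x ∩ G.Lv m).card := by
                rw [Finset.union_inter_distrib_right]; exact Finset.card_union_le _ _
            _ ≤ _ := by omega
        have hphi := phi_two (d0 := G.D V0 A0 m) (d1 := G.D V' A1 m) (d2 := G.D V2 A2 m)
          (q := (G.q : ℤ)) (by positivity) (by unfold GameData.D; omega)
          (by unfold GameData.D; omega) (by unfold GameData.D; omega)
        have hc : (0 : ℤ) ≤ (G.c m : ℤ) := by positivity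
        nlinarith
      refine h1.trans ?_
      rw [Finset.sum_add_distrib, ← Finset.mul_sum, ← Finset.mul_sum]
      have h2 : (∑ m ∈ G.M, (G.c m : ℤ) * (G.q : ℤ) ^ 2) ≤ (G.κ : ℤ) := by
        exact_mod_cast hG.κge
      linarith
    have h2fr : ((V2 ∩ G.Fr).card : ℤ) = ((V0 ∩ G.Fr).card : ℤ) := by rw [hF2]
    have hlt' : ((V0 ∩ G.Fr).card : ℤ) + 1 ≤ ((V' ∩ G.Fr).card : ℤ) := by exact_mod_cast hlt
    have hκ : (0 : ℤ) < (G.κ : ℤ) := by exact_mod_cast hG.κpos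
    unfold GameData.Psi at hΨ2 hΨ' hθ
    rw [h2fr] at hΨ2
    nlinarith

/-- the one-input lemma: in one of the two roles the builder wins or exits with smaller potential -/
lemma oneInput (hG : G.Ok) (x : β) (V0 A0 : Finset α) (hL : G.Legal V0) :
    ∃ r : Bool, ∃ A', A0 ⊆ A' ∧ A' ⊆ A0 ∪ G.Q x ∧ G.R x r (G.Psi V0 A0 - G.κ) V0 A' := by
  by_contra hcon
  push Not at hcon
  have hκ : (0 : ℤ) < (G.κ : ℤ) := by exact_mod_cast hG.κpos
  refine selfplay hG x V0 A0 _ rfl ((G.U \ V0).card + (G.U \ V0).card) (!(G.F x (V0 ∪ A0)))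
    V0 A0 V0 A0 le_rfl hL hL (Finset.Subset.refl _) (Finset.Subset.refl _) rfl rfl
    (Finset.Subset.refl _) (Finset.Subset.refl _) Finset.subset_union_left
    Finset.subset_union_left rfl (fun m _ => le_rfl) (fun m _ => le_rfl)
    (hcon _ A0 (Finset.Subset.refl _) Finset.subset_union_left) (by simp) ?_ (by linarith)
  intro A' h1 h2
  exact hcon _ A' h1 h2

variable [DecidableEq β]

/-- invariant describing the reachable builder positions -/
def GameData.Inv (G : GameData α β ι) (X : Finset β) (Act : Finset α)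
    (V A : Finset α) (H : Finset β) : Prop :=
  G.Legal V ∧ H ⊆ X ∧ A ⊆ Act ∧ ∃ x ∈ X, ∃ Us : Finset β, Us ⊆ X ∧ x ∈ Us ∧ H ⊆ Us ∧
    ∃ V0 A0 : Finset α, G.Legal V0 ∧ A ⊆ A0 ∪ G.Q x ∧
      G.Psi V0 A0 + (G.κ : ℤ) * ((Us.card : ℤ) - 1) ≤ 0 ∧
      G.R x (decide (x ∈ H)) (G.Psi V0 A0 - G.κ) V A

lemma start_step (hG : G.Ok) {X : Finset β} {Act : Finset α} (hX : 4 * G.Fr.card < X.card)
    (hQ : ∀ x, G.Q x ⊆ Act) {V A : Finset α} {H Us : Finset β} (hV : G.Legal V)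
    (hA : A ⊆ Act) (hH : H ⊆ Us) (hUs : Us ⊆ X)
    (hΨ : G.Psi V A + (G.κ : ℤ) * (Us.card : ℤ) ≤ 0) :
    ∃ A' H', A ⊆ A' ∧ H ⊆ H' ∧ G.Inv X Act V A' H' := by
  have hκ : (0 : ℤ) < (G.κ : ℤ) := by exact_mod_cast hG.κpos
  have hcard : Us.card ≤ 4 * G.Fr.card := by
    have h1 : 0 ≤ G.Phi V A := Phi_nonneg V A
    have h2 : (V ∩ G.Fr).card ≤ G.Fr.card := Finset.card_le_card Finset.inter_subset_right
    have h2' : ((V ∩ G.Fr).card : ℤ) ≤ (G.Fr.card : ℤ) := by exact_mod_cast h2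
    unfold GameData.Psi at hΨ
    have h3 : (G.κ : ℤ) * (Us.card : ℤ) ≤ (G.κ : ℤ) * (4 * (G.Fr.card : ℤ)) := by nlinarith
    have h4 := le_of_mul_le_mul_left h3 hκ
    exact_mod_cast h4
  obtain ⟨x, hxX, hxU⟩ : ∃ x ∈ X, x ∉ Us := by
    by_contra hcon
    push Not at hcon
    have := Finset.card_le_card (show X ⊆ Us from hcon)
    omega
  obtain ⟨r, A', h1, h2, h3⟩ := oneInput hG x V A hV
  have hxH : x ∉ H := fun h => hxU (hH h)
  refine ⟨A', if r then insert x H else H, h1, ?_, hV, ?_, ?_, x, hxX, insert x Us, ?_,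
    Finset.mem_insert_self _ _, ?_, V, A, hV, h2, ?_, ?_⟩
  · split_ifs
    · exact Finset.subset_insert _ _
    · exact Finset.Subset.refl _
  · split_ifs
    · exact Finset.insert_subset hxX (hH.trans hUs)
    · exact hH.trans hUs
  · exact h2.trans (Finset.union_subset hA (hQ x))
  · exact Finset.insert_subset hxX hUs
  · split_ifs
    · exact Finset.insert_subset_insert _ hH
    · exact hH.trans (Finset.subset_insert _ _)
  · rw [Finset.card_insert_of_notMem hxU]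
    push_cast
    linarith
  · cases r
    · simpa [hxH] using h3
    · simpa using h3

/-- the finite game theorem: there is a closed table of builder positions -/
theorem game_table (hG : G.Ok) {X : Finset β} {Act : Finset α} (hX : 4 * G.Fr.card < X.card)
    (hQ : ∀ x, G.Q x ⊆ Act) :
    (∀ V, G.Legal V → ∃ A H, G.Inv X Act V A H) ∧
    (∀ V A H, G.Inv X Act V A H → ∀ V', V ⊆ V' → G.Legal V' →
      ∃ A' H', A ⊆ A' ∧ H ⊆ H' ∧ G.Inv X Act V' A' H') := by
  constructor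
  · intro V hV
    obtain ⟨A', H', -, -, h⟩ := start_step hG hX hQ (A := ∅) (H := ∅) (Us := ∅) hV
      (Finset.empty_subset _) (Finset.empty_subset _) (Finset.empty_subset _) (by
        have : G.Phi V ∅ = 0 := by
          unfold GameData.Phi
          apply Finset.sum_eq_zero
          intro m _
          have : phi (G.D V ∅ m) = 0 := by
            unfold GameData.D phi
            rw [max_eq_right (by simp)]
            simp
          rw [this, mul_zero]
        unfold GameData.Psi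
        rw [this]
        have : (0 : ℤ) ≤ 4 * (G.κ : ℤ) * ((V ∩ G.Fr).card : ℤ) := by positivity
        simp only [Finset.card_empty, Nat.cast_zero, mul_zero, add_zero]
        linarith)
    exact ⟨A', H', h⟩
  · rintro V A H ⟨hV, hHX, hAct, x, hx, Us, hUs, hxUs, hHUs, V0, A0, hV0, hA0, hΨ, hR⟩ V' hVV' hV'
    by_cases heq : V = V'
    · subst heq
      exact ⟨A, H, Finset.Subset.refl _, Finset.Subset.refl _, hV, hHX, hAct, x, hx, Us, hUs, hxUs,
        hHUs, V0, A0, hV0, hA0, hΨ, hR⟩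
    · have hss : V ⊂ V' := Finset.ssubset_iff_subset_ne.2 ⟨hVV', heq⟩
      rcases (R_unfold.1 hR).2 V' hss hV' with hexit | ⟨-, A', h1, h2, h3⟩
      · -- exit
        refine start_step hG hX hQ hV' hAct hHUs hUs ?_
        linarith
      · refine ⟨A', H, h1, Finset.Subset.refl _, hV', hHX,
          h2.trans (Finset.union_subset hAct (hQ x)), x, hx, Us, hUs, hxUs, hHUs, V0, A0, hV0,
          ?_, hΨ, h3⟩
        refine h2.trans (Finset.union_subset hA0 Finset.subset_union_right)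

lemma Inv.good {X : Finset β} {Act : Finset α} {V A : Finset α} {H : Finset β}
    (h : G.Inv X Act V A H) : ∃ x ∈ X, G.F x (V ∪ A) = !(decide (x ∈ H)) := by
  obtain ⟨hV, hHX, hAct, x, hx, Us, hUs, hxUs, hHUs, V0, A0, hV0, hA0, hΨ, hR⟩ := h
  exact ⟨x, hx, bool_aux (R_unfold.1 hR).1⟩

/-- budget bound -/
lemma Inv.budget (hG : G.Ok) {X : Finset β} {Act : Finset α} {V A : Finset α} {H : Finset β}
    (h : G.Inv X Act V A H) {m : ι} (hm : m ∈ G.M) {B : ℕ}
    (hB : ∀ d : ℤ, (G.c m : ℤ) * phi d ≤ 4 * (G.κ : ℤ) * (G.Fr.card : ℤ) → d ≤ B) :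
    (A ∩ G.Lv m).card ≤ G.bV m + B + G.q := by
  obtain ⟨hV, hHX, hAct, x, hx, Us, hUs, hxUs, hHUs, V0, A0, hV0, hA0, hΨ, hR⟩ := h
  have hκ : (0 : ℤ) < (G.κ : ℤ) := by exact_mod_cast hG.κpos
  have h1 : 1 ≤ Us.card := Finset.card_pos.2 ⟨x, hxUs⟩
  have h1' : (1 : ℤ) ≤ (Us.card : ℤ) := by exact_mod_cast h1
  have h2 : G.Psi V0 A0 ≤ 0 := by nlinarith
  have h3 : (V0 ∩ G.Fr).card ≤ G.Fr.card := Finset.card_le_card Finset.inter_subset_right
  have h3' : ((V0 ∩ G.Fr).card : ℤ) ≤ (G.Fr.card : ℤ) := by exact_mod_cast h3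
  have h4 : G.Phi V0 A0 ≤ 4 * (G.κ : ℤ) * (G.Fr.card : ℤ) := by
    unfold GameData.Psi at h2
    nlinarith
  have h5 : (G.c m : ℤ) * phi (G.D V0 A0 m) ≤ G.Phi V0 A0 := by
    unfold GameData.Phi
    exact Finset.single_le_sum (f := fun m => (G.c m : ℤ) * phi (G.D V0 A0 m))
      (fun m _ => mul_nonneg (by positivity) (phi_nonneg _)) hm
  have h6 := hB _ (h5.trans h4)
  unfold GameData.D at h6
  have h7 := hV0.2 m hm
  have h8 : (A ∩ G.Lv m).card ≤ (A0 ∩ G.Lv m).card + G.q := by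
    calc (A ∩ G.Lv m).card ≤ ((A0 ∪ G.Q x) ∩ G.Lv m).card := card_inter_mono hA0
      _ ≤ (A0 ∩ G.Lv m).card + (G.Q x ∩ G.Lv m).card := by
          rw [Finset.union_inter_distrib_right]; exact Finset.card_union_le _ _
      _ ≤ _ := by have := hG.qle x m hm; omega
  omega

end Game

end Pool.Agent.LibRandTT
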