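import Mathlib
import Pool.Agent.LibRandTT.Game
import Pool.Agent.LibRandTT.Bits

/-!
The concrete game for one requirement and the decidable predicate `check` recognising
winning tables of the builder.
-/

namespace Pool.Agent.LibRandTT

open Nat.Partrec Encodable Denumerable

/-- legal environment masks -/
def legal (a0 a1 V : ℕ) : Prop :=
  V < 2 ^ 2 ^ (a1 + 1) ∧ ∀ m < a1 + 1, a0 < m → 32 * cnt V m ≤ 2 ^ m

/-- answers of the oracle to a list of queries -/
def ansv (K V A : ℕ) (Q : List (List Bool)) : List Bool :=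
  Q.map (fun y => decide (num y < K ∧ ¬ V.testBit (num y) = true ∧ ¬ A.testBit (num y) = true))

/-- code for the queries of requirement `e` -/
def cq (e : ℕ) : Code := ofNat Code e.unpair.1

/-- code for the evaluator of requirement `e` -/
def cg (e : ℕ) : Code := ofNat Code e.unpair.2.unpair.1

/-- bounded evaluation of requirement `e` -/
def Fev (K e s : ℕ) (x : List Bool) (V A : ℕ) : Option Bool :=
  (Code.evaln s (cq e) (encode x)).bind fun r =>
    (decode (α := List (List Bool)) r).bind fun Q =>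
      (Code.evaln s (cg e) (encode (x, ansv K V A Q))).bind fun r' => decode (α := Bool) r'

/-- condition on a single builder position -/
def good1 (a0 a1 e s : ℕ) (t : ℕ × ℕ × ℕ) : Prop :=
  (∀ i < t.2.1, t.2.1.testBit i = true → 2 ^ (a0 + 1) ≤ i ∧ i < 2 ^ (a1 + 1)) ∧
  (∀ m < a1 + 1, 4 * cnt t.2.1 m ≤ 2 ^ m) ∧
  ∃ i < 2 ^ (a0 + 4 + 1), 2 ^ (a0 + 4) ≤ i ∧
    Fev (2 ^ (a1 + 1)) e s (str i) t.1 t.2.1 = some (!(t.2.2.testBit i))

/-- winning table -/
def check (a0 a1 e s : ℕ) (T : List (ℕ × ℕ × ℕ)) : Prop :=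
  (∀ t ∈ T, good1 a0 a1 e s t) ∧
  (∀ V < 2 ^ 2 ^ (a1 + 1), legal a0 a1 V → ∃ t ∈ T, t.1 = V) ∧
  (∀ t ∈ T, ∀ V < 2 ^ 2 ^ (a1 + 1), sub t.1 V → legal a0 a1 V →
    ∃ t' ∈ T, t'.1 = V ∧ sub t.2.1 t'.2.1 ∧ sub t.2.2 t'.2.2)

section PR

variable {α : Type} [Primcodable α]

lemma primrec_legal {a0 a1 V : α → ℕ} (h0 : Primrec a0) (h1 : Primrec a1) (hV : Primrec V) :
    PrimrecPred fun a => legal (a0 a) (a1 a) (V a) := by
  unfold legal
  refine (PP.lt hV (primrec_pow2 (primrec_pow2 (Primrec.succ.comp h1)))).and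
    (PP.forall_lt (p := fun a m => a0 a < m → 32 * cnt (V a) m ≤ 2 ^ m)
      (Primrec.succ.comp h1) ?_)
  exact PP.imp (PP.lt (h0.comp Primrec.fst) Primrec.snd)
    (PP.le (Primrec.nat_mul.comp (Primrec.const 32) (primrec_cnt.comp (hV.comp Primrec.fst)
      Primrec.snd)) (primrec_pow2 Primrec.snd))

lemma primrec_ansv {K V A : α → ℕ} {Q : α → List (List Bool)} (hK : Primrec K) (hV : Primrec V)
    (hA : Primrec A) (hQ : Primrec Q) : Primrec fun a => ansv (K a) (V a) (A a) (Q a) := by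
  unfold ansv
  refine Primrec.list_map hQ ?_
  have : PrimrecPred fun p : α × List Bool => num p.2 < K p.1 ∧
      ¬ (V p.1).testBit (num p.2) = true ∧ ¬ (A p.1).testBit (num p.2) = true :=
    (PP.lt (primrec_num.comp Primrec.snd) (hK.comp Primrec.fst)).and
      ((PP.testBit (hV.comp Primrec.fst) (primrec_num.comp Primrec.snd)).not.and
        (PP.testBit (hA.comp Primrec.fst) (primrec_num.comp Primrec.snd)).not)
  exact this.decide

lemma primrec_evaln' {s : α → ℕ} {c : α → Code} {z : α → ℕ} (hs : Primrec s) (hc : Primrec c)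
    (hz : Primrec z) : Primrec fun a => Code.evaln (s a) (c a) (z a) :=
  Code.primrec_evaln.comp ((hs.pair hc).pair hz)

lemma primrec_cq : Primrec cq :=
  (Primrec.ofNat Code).comp (Primrec.fst.comp Primrec.unpair)

lemma primrec_cg : Primrec cg :=
  (Primrec.ofNat Code).comp (Primrec.fst.comp (Primrec.unpair.comp (Primrec.snd.comp Primrec.unpair)))

lemma primrec_Fev {K e s V A : α → ℕ} {x : α → List Bool} (hK : Primrec K) (he : Primrec e)
    (hs : Primrec s) (hx : Primrec x) (hV : Primrec V) (hA : Primrec A) :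
    Primrec fun a => Fev (K a) (e a) (s a) (x a) (V a) (A a) := by
  unfold Fev
  refine Primrec.option_bind (primrec_evaln' hs (primrec_cq.comp he) (Primrec.encode.comp hx)) ?_
  refine Primrec.option_bind (Primrec.decode.comp Primrec.snd) ?_
  have h1 : Primrec (fun p : (α × ℕ) × List (List Bool) => p.1.1) := Primrec.fst.comp Primrec.fst
  refine Primrec.option_bind (primrec_evaln' (hs.comp h1) (primrec_cg.comp (he.comp h1))
    (Primrec.encode.comp ((hx.comp h1).pair
      (primrec_ansv (hK.comp h1) (hV.comp h1) (hA.comp h1) Primrec.snd)))) ?_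
  exact (Primrec.decode.comp Primrec.snd)

lemma primrec_good1 {a0 a1 e s : α → ℕ} {t : α → ℕ × ℕ × ℕ} (h0 : Primrec a0) (h1 : Primrec a1)
    (he : Primrec e) (hs : Primrec s) (ht : Primrec t) :
    PrimrecPred fun a => good1 (a0 a) (a1 a) (e a) (s a) (t a) := by
  unfold good1
  have hV : Primrec fun a => (t a).1 := Primrec.fst.comp ht
  have hA : Primrec fun a => (t a).2.1 := Primrec.fst.comp (Primrec.snd.comp ht)
  have hH : Primrec fun a => (t a).2.2 := Primrec.snd.comp (Primrec.snd.comp ht)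
  refine (PP.forall_lt (p := fun a i => (t a).2.1.testBit i = true →
      2 ^ (a0 a + 1) ≤ i ∧ i < 2 ^ (a1 a + 1)) hA ?_).and
    ((PP.forall_lt (p := fun a m => 4 * cnt (t a).2.1 m ≤ 2 ^ m) (Primrec.succ.comp h1) ?_).and
      (PP.exists_lt (p := fun a i => 2 ^ (a0 a + 4) ≤ i ∧
        Fev (2 ^ (a1 a + 1)) (e a) (s a) (str i) (t a).1 (t a).2.1 =
          some (!((t a).2.2.testBit i))) ?_ ?_))
  · exact PP.imp (PP.testBit (hA.comp Primrec.fst) Primrec.snd)
      ((PP.le (primrec_pow2 (Primrec.succ.comp (h0.comp Primrec.fst))) Primrec.snd).and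
        (PP.lt Primrec.snd (primrec_pow2 (Primrec.succ.comp (h1.comp Primrec.fst)))))
  · exact PP.le (Primrec.nat_mul.comp (Primrec.const 4)
      (primrec_cnt.comp (hA.comp Primrec.fst) Primrec.snd)) (primrec_pow2 Primrec.snd)
  · exact primrec_pow2 (Primrec.succ.comp (Primrec.nat_add.comp h0 (Primrec.const 4)))
  · exact (PP.le (primrec_pow2 (Primrec.nat_add.comp (h0.comp Primrec.fst) (Primrec.const 4)))
      Primrec.snd).and (PP.eq (primrec_Fev
        (primrec_pow2 (Primrec.succ.comp (h1.comp Primrec.fst)))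
        (he.comp Primrec.fst) (hs.comp Primrec.fst) (primrec_str.comp Primrec.snd)
        (hV.comp Primrec.fst) (hA.comp Primrec.fst))
        (Primrec.option_some.comp (Primrec.not.comp
          (primrec_testBit.comp (hH.comp Primrec.fst) Primrec.snd))))

lemma primrec_check {a0 a1 e s : α → ℕ} {T : α → List (ℕ × ℕ × ℕ)} (h0 : Primrec a0)
    (h1 : Primrec a1) (he : Primrec e) (hs : Primrec s) (hT : Primrec T) :
    PrimrecPred fun a => check (a0 a) (a1 a) (e a) (s a) (T a) := by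
  unfold check
  refine (PP.forall_mem (p := fun a t => good1 (a0 a) (a1 a) (e a) (s a) t) hT
    (primrec_good1 (h0.comp Primrec.fst) (h1.comp Primrec.fst) (he.comp Primrec.fst)
      (hs.comp Primrec.fst) Primrec.snd)).and
    ((PP.forall_lt (p := fun a V => legal (a0 a) (a1 a) V → ∃ t ∈ T a, t.1 = V)
      (primrec_pow2 (primrec_pow2 (Primrec.succ.comp h1))) ?_).and
    (PP.forall_mem (p := fun a t => ∀ V < 2 ^ 2 ^ (a1 a + 1), sub t.1 V → legal (a0 a) (a1 a) V →
      ∃ t' ∈ T a, t'.1 = V ∧ sub t.2.1 t'.2.1 ∧ sub t.2.2 t'.2.2) hT ?_))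
  · refine PP.imp (primrec_legal (h0.comp Primrec.fst) (h1.comp Primrec.fst) Primrec.snd) ?_
    refine PP.exists_mem (p := fun (a : α × ℕ) t => t.1 = a.2) (hT.comp Primrec.fst) ?_
    exact PP.eq (Primrec.fst.comp Primrec.snd) (Primrec.snd.comp Primrec.fst)
  · refine PP.forall_lt (f := fun p : α × (ℕ × ℕ × ℕ) => 2 ^ 2 ^ (a1 p.1 + 1))
      (p := fun p V => sub p.2.1 V → legal (a0 p.1) (a1 p.1) V →
      ∃ t' ∈ T p.1, t'.1 = V ∧ sub p.2.2.1 t'.2.1 ∧ sub p.2.2.2 t'.2.2)
      (primrec_pow2 (primrec_pow2 (Primrec.succ.comp (h1.comp Primrec.fst)))) ?_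
    refine PP.imp (primrecRel_sub.comp (Primrec.fst.comp (Primrec.snd.comp Primrec.fst))
      Primrec.snd) (PP.imp (primrec_legal (h0.comp (Primrec.fst.comp Primrec.fst))
        (h1.comp (Primrec.fst.comp Primrec.fst)) Primrec.snd) ?_)
    refine PP.exists_mem (L := fun q : (α × (ℕ × ℕ × ℕ)) × ℕ => T q.1.1)
      (p := fun q t' => t'.1 = q.2 ∧ sub q.1.2.2.1 t'.2.1 ∧
      sub q.1.2.2.2 t'.2.2) (hT.comp (Primrec.fst.comp Primrec.fst)) ?_
    have h2 : Primrec fun r : ((α × (ℕ × ℕ × ℕ)) × ℕ) × (ℕ × ℕ × ℕ) => r.1.1.2 :=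
      Primrec.snd.comp (Primrec.fst.comp Primrec.fst)
    exact (PP.eq (Primrec.fst.comp Primrec.snd) (Primrec.snd.comp Primrec.fst)).and
      ((primrecRel_sub.comp (Primrec.fst.comp (Primrec.snd.comp h2))
        (Primrec.fst.comp (Primrec.snd.comp Primrec.snd))).and
      (primrecRel_sub.comp (Primrec.snd.comp (Primrec.snd.comp h2))
        (Primrec.snd.comp (Primrec.snd.comp Primrec.snd))))

end PR

end Pool.Agent.LibRandTT
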