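import Mathlib
import Pool.Agent.LibRandTT.Check

/-!
Existence of winning tables for total requirements with few queries.
-/

namespace Pool.Agent.LibRandTT

open Nat.Partrec Encodable Denumerable

lemma geom4 (a0 a1 : ℕ) (h : a0 ≤ a1) :
    3 * (∑ m ∈ Finset.Ioc a0 a1, 4 ^ (a1 - m)) + 1 = 4 ^ (a1 - a0) := by
  induction a1, h using Nat.le_induction with
  | base => simp
  | succ n hn ih =>
    rw [Finset.sum_Ioc_succ_top (by omega)]
    have e1 : ∑ m ∈ Finset.Ioc a0 n, 4 ^ (n + 1 - m) = 4 * ∑ m ∈ Finset.Ioc a0 n, 4 ^ (n - m) := by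
      rw [Finset.mul_sum]
      apply Finset.sum_congr rfl
      intro m hm
      rw [Finset.mem_Ioc] at hm
      rw [show n + 1 - m = (n - m) + 1 by omega, pow_succ]
      ring
    rw [e1, show n + 1 - a0 = (n - a0) + 1 by omega, pow_succ, ← ih]
    simp
    ring

lemma evaln_eq_some {c : Code} {x y : ℕ} (h : y ∈ c.eval x) :
    ∃ s0, ∀ s ≥ s0, Code.evaln s c x = some y := by
  obtain ⟨k, hk⟩ := Code.evaln_complete.1 h
  exact ⟨k, fun s hs => Code.evaln_mono hs hk⟩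

section

variable (a0 a1 qb : ℕ) (q : List Bool → List (List Bool)) (g : List Bool → List Bool → Bool)

open Classical in
/-- the game attached to a total requirement -/
noncomputable def GD : GameData ℕ ℕ ℕ where
  U := Finset.range (2 ^ (a1 + 1))
  Fr := Finset.range (2 ^ (a0 + 1))
  M := Finset.Ioc a0 a1
  Lv := fun m => Finset.Ico (2 ^ m) (2 ^ (m + 1))
  c := fun m => 4 ^ (a1 - m)
  bV := fun m => 2 ^ m / 32
  F := fun i N => if i ∈ Finset.Ico (2 ^ (a0 + 4)) (2 ^ (a0 + 4 + 1)) then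
    g (str i) ((q (str i)).map (fun y => decide (num y < 2 ^ (a1 + 1) ∧ num y ∉ N))) else false
  Q := fun i => if i ∈ Finset.Ico (2 ^ (a0 + 4)) (2 ^ (a0 + 4 + 1)) then
    ((q (str i)).map num).toFinset.filter (fun j => 2 ^ (a0 + 1) ≤ j ∧ j < 2 ^ (a1 + 1)) else ∅
  q := qb
  κ := 4 ^ (a1 - a0) * qb ^ 2

variable {a0 a1 qb q g}

lemma GD_legal {V : ℕ} : (GD a0 a1 qb q g).Legal (bs V) ↔ legal a0 a1 V := by
  unfold GameData.Legal legal
  constructor
  · rintro ⟨h1, h2⟩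
    refine ⟨lt_two_pow_of_bits fun i hi => ?_, fun m hm hm0 => ?_⟩
    · have := h1 (mem_bs.2 hi)
      simpa [GD] using this
    · have := h2 m (by simp [GD]; omega)
      have h3 : cnt V m ≤ 2 ^ m / 32 := this
      omega
  · rintro ⟨h1, h2⟩
    refine ⟨fun i hi => ?_, fun m hm => ?_⟩
    · simp only [GD, Finset.mem_range]
      exact lt_of_testBit_lt h1 (mem_bs.1 hi)
    · simp only [GD, Finset.mem_Ioc] at hm
      have := h2 m (by omega) hm.1
      change cnt V m ≤ 2 ^ m / 32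
      omega

lemma GD_ok (h01 : a0 ≤ a1) (hqb : 1 ≤ qb)
    (hlen : ∀ x : List Bool, x.length = a0 + 4 → (q x).length ≤ qb) :
    (GD a0 a1 qb q g).Ok where
  κpos := by
    simp only [GD]
    positivity
  κge := by
    simp only [GD]
    rw [← Finset.sum_mul]
    apply Nat.mul_le_mul_right
    have := geom4 a0 a1 h01
    omega
  supp := by
    intro x N N' h
    simp only [GD] at h ⊢
    split_ifs at h ⊢ with hx
    · congr 1
      apply List.map_congr_left
      intro y hy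
      by_cases hK : num y < 2 ^ (a1 + 1)
      · have hmem : num y ∈ (Finset.range (2 ^ (a0 + 1)) ∪
            ((q (str x)).map num).toFinset.filter (fun j => 2 ^ (a0 + 1) ≤ j ∧ j < 2 ^ (a1 + 1))) := by
          rw [Finset.mem_union, Finset.mem_range, Finset.mem_filter, List.mem_toFinset,
            List.mem_map]
          by_cases h0 : num y < 2 ^ (a0 + 1)
          · exact Or.inl h0
          · exact Or.inr ⟨⟨y, hy, rfl⟩, by omega, hK⟩
        have h1 := Finset.ext_iff.1 h (num y)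
        rw [Finset.mem_inter, Finset.mem_inter] at h1
        have h2 : num y ∈ N ↔ num y ∈ N' := by tauto
        simp [h2]
      · simp [hK]
    · rfl
  disj := by
    intro x
    simp only [GD]
    split_ifs with hx
    · rw [Finset.disjoint_left]
      intro j hj hj'
      rw [Finset.mem_filter] at hj
      rw [Finset.mem_range] at hj'
      omega
    · simp
  qle := by
    intro x m hm
    simp only [GD]
    split_ifs with hx
    · refine (Finset.card_le_card Finset.inter_subset_left).trans ?_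
      refine (Finset.card_filter_le _ _).trans ?_
      refine (List.toFinset_card_le _).trans ?_
      rw [List.length_map]
      apply hlen
      rw [str_length]
      rw [Finset.mem_Ico] at hx
      exact (Nat.log_eq_iff (Or.inr ⟨by norm_num, by
        have : 0 < 2 ^ (a0 + 4) := by positivity
        omega⟩)).2 hx
    · simp

/-- the active part -/
def Act (a0 a1 : ℕ) : Finset ℕ := Finset.Ico (2 ^ (a0 + 1)) (2 ^ (a1 + 1))

/-- the inputs -/
def Xs (a0 : ℕ) : Finset ℕ := Finset.Ico (2 ^ (a0 + 4)) (2 ^ (a0 + 4 + 1))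

lemma GD_Q_sub (x : ℕ) : (GD a0 a1 qb q g).Q x ⊆ Act a0 a1 := by
  simp only [GD]
  split_ifs with hx
  · intro j hj
    rw [Finset.mem_filter] at hj
    exact Finset.mem_Ico.2 hj.2
  · simp

lemma GD_hX : 4 * (GD a0 a1 qb q g).Fr.card < (Xs a0).card := by
  simp only [GD, Xs, Finset.card_range, Nat.card_Ico]
  have e1 : 2 ^ (a0 + 1) = 2 * 2 ^ a0 := by ring
  have e2 : 2 ^ (a0 + 4) = 16 * 2 ^ a0 := by ring
  have e3 : 2 ^ (a0 + 4 + 1) = 32 * 2 ^ a0 := by ring
  have : 0 < 2 ^ a0 := by positivity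
  omega

/-- budget computation -/
lemma GD_budget (h01 : a0 ≤ a1) (hqb : 1 ≤ qb) (h512 : 512 * qb ^ 2 ≤ 2 ^ a0)
    (hlen : ∀ x : List Bool, x.length = a0 + 4 → (q x).length ≤ qb) {V A H : Finset ℕ}
    (h : (GD a0 a1 qb q g).Inv (Xs a0) (Act a0 a1) V A H) {m : ℕ} (hm0 : a0 < m) (hm1 : m ≤ a1) :
    4 * (A ∩ Finset.Ico (2 ^ m) (2 ^ (m + 1))).card ≤ 2 ^ m := by
  have hB := Inv.budget (GD_ok h01 hqb hlen) h (m := m) (by simp [GD, hm0, hm1]) (B := 2 ^ m / 8) ?_
  · have hB' : (A ∩ Finset.Ico (2 ^ m) (2 ^ (m + 1))).card ≤ 2 ^ m / 32 + 2 ^ m / 8 + qb := hB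
    have h1 : 2 ^ a0 ≤ 2 ^ m := Nat.pow_le_pow_right (by norm_num) hm0.le
    have h2 : qb ≤ qb ^ 2 := by nlinarith
    omega
  · intro d hd
    simp only [GD, Finset.card_range] at hd
    push_cast at hd
    -- 4^(a1-m) * phi d ≤ 4 * (4^(a1-a0) * qb^2) * 2^(a0+1)
    have e1 : (4 : ℤ) ^ (a1 - a0) = 4 ^ (a1 - m) * 4 ^ (m - a0) := by
      rw [← pow_add]; congr 1; omega
    have hpos : (0 : ℤ) < 4 ^ (a1 - m) := by positivity
    have h2 : phi d ≤ 8 * (4 : ℤ) ^ (m - a0) * (qb : ℤ) ^ 2 * 2 ^ a0 := by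
      have : (4 : ℤ) ^ (a1 - m) * phi d ≤
          (4 : ℤ) ^ (a1 - m) * (8 * (4 : ℤ) ^ (m - a0) * (qb : ℤ) ^ 2 * 2 ^ a0) := by
        calc (4 : ℤ) ^ (a1 - m) * phi d ≤ _ := hd
          _ = (4 : ℤ) ^ (a1 - m) * (8 * (4 : ℤ) ^ (m - a0) * (qb : ℤ) ^ 2 * 2 ^ a0) := by
              rw [e1, pow_succ]; ring
      exact le_of_mul_le_mul_left this hpos
    have h512' : (512 : ℤ) * (qb : ℤ) ^ 2 ≤ 2 ^ a0 := by exact_mod_cast h512
    have e2 : (4 : ℤ) ^ (m - a0) * (2 ^ a0 * 2 ^ a0) = (2 ^ m) ^ 2 := by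
      have : (4 : ℤ) = 2 ^ 2 := by norm_num
      rw [this, ← pow_mul, ← pow_add, ← pow_add, ← pow_mul]
      congr 1
      omega
    have h3 : 64 * phi d ≤ (2 ^ m : ℤ) ^ 2 := by
      rw [← e2]
      have hp : (0 : ℤ) ≤ 4 ^ (m - a0) * 2 ^ a0 := by positivity
      nlinarith [mul_le_mul_of_nonneg_left h512' hp]
    have h4 : 8 * d ≤ 2 ^ m := by
      unfold phi at h3
      have h5 : d ≤ max d 0 := le_max_left _ _
      have h6 : (0 : ℤ) ≤ max d 0 := le_max_right _ _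
      have h7 : (0 : ℤ) ≤ 2 ^ m := by positivity
      have h8 : (8 * max d 0) ^ 2 ≤ ((2 : ℤ) ^ m) ^ 2 := by nlinarith
      have h9 : 8 * max d 0 ≤ (2 : ℤ) ^ m := by
        by_contra hcon
        push Not at hcon
        nlinarith
      linarith
    push_cast
    rw [Int.le_ediv_iff_mul_le (by norm_num)]
    linarith

lemma Fev_eventually {e : ℕ} (hq : ∀ x, encode (q x) ∈ (cq e).eval (encode x))
    (hg : ∀ x ans, encode (g x ans) ∈ (cg e).eval (encode (x, ans))) {i : ℕ} (hi : i ∈ Xs a0)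
    (V A : ℕ) : ∃ s0, ∀ s ≥ s0, Fev (2 ^ (a1 + 1)) e s (str i) V A =
      some ((GD a0 a1 qb q g).F i (bs V ∪ bs A)) := by
  obtain ⟨s1, hs1⟩ := evaln_eq_some (hq (str i))
  obtain ⟨s2, hs2⟩ := evaln_eq_some (hg (str i) (ansv (2 ^ (a1 + 1)) V A (q (str i))))
  refine ⟨max s1 s2, fun s hs => ?_⟩
  unfold Fev
  rw [hs1 s (le_trans (le_max_left _ _) hs)]
  simp only [Option.bind_some, encodek]
  rw [hs2 s (le_trans (le_max_right _ _) hs)]
  simp only [Option.bind_some, encodek]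
  congr 1
  simp only [GD]
  rw [if_pos (show i ∈ Finset.Ico (2 ^ (a0 + 4)) (2 ^ (a0 + 4 + 1)) from hi)]
  congr 1
  unfold ansv
  apply List.map_congr_left
  intro y _
  simp

theorem check_exists {e : ℕ} (h01 : a0 ≤ a1) (hqb : 1 ≤ qb) (h512 : 512 * qb ^ 2 ≤ 2 ^ a0)
    (hlen : ∀ x : List Bool, x.length = a0 + 4 → (q x).length ≤ qb)
    (hq : ∀ x, encode (q x) ∈ (cq e).eval (encode x))
    (hg : ∀ x ans, encode (g x ans) ∈ (cg e).eval (encode (x, ans))) :
    ∃ s T, check a0 a1 e s T := by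
  classical
  -- uniform fuel
  have hfuel : ∃ s0, ∀ s ≥ s0, ∀ i ∈ Xs a0, ∀ V < 2 ^ 2 ^ (a1 + 1), ∀ A < 2 ^ 2 ^ (a1 + 1),
      Fev (2 ^ (a1 + 1)) e s (str i) V A = some ((GD a0 a1 qb q g).F i (bs V ∪ bs A)) := by
    choose! f hf using fun (i : ℕ) (hi : i ∈ Xs a0) (V A : ℕ) =>
      Fev_eventually (a0 := a0) (a1 := a1) (qb := qb) (q := q) (g := g) (e := e) hq hg hi V A
    refine ⟨(Xs a0).sup fun i => (Finset.range (2 ^ 2 ^ (a1 + 1))).sup fun V =>
      (Finset.range (2 ^ 2 ^ (a1 + 1))).sup fun A => f i V A, fun s hs i hi V hV A hA => ?_⟩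
    apply hf i hi V A
    refine le_trans ?_ hs
    refine le_trans ?_ (Finset.le_sup (f := fun i => (Finset.range (2 ^ 2 ^ (a1 + 1))).sup fun V =>
      (Finset.range (2 ^ 2 ^ (a1 + 1))).sup fun A => f i V A) hi)
    refine le_trans ?_ (Finset.le_sup (f := fun V =>
      (Finset.range (2 ^ 2 ^ (a1 + 1))).sup fun A => f i V A) (Finset.mem_range.2 hV))
    exact Finset.le_sup (f := fun A => f i V A) (Finset.mem_range.2 hA)
  obtain ⟨s, hs⟩ := hfuel
  have hs := hs s le_rfl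
  set G := GD a0 a1 qb q g with hG
  have hok : G.Ok := GD_ok h01 hqb hlen
  obtain ⟨ht1, ht2⟩ := game_table hok (X := Xs a0) (Act := Act a0 a1) GD_hX GD_Q_sub
  refine ⟨s, ((List.range (2 ^ 2 ^ (a1 + 1))).product ((List.range (2 ^ 2 ^ (a1 + 1))).product
    (List.range (2 ^ 2 ^ (a0 + 4 + 1))))).filter
      (fun t => decide (G.Inv (Xs a0) (Act a0 a1) (bs t.1) (bs t.2.1) (bs t.2.2))), ?_, ?_, ?_⟩
  · rintro ⟨V, A, H⟩ ht
    rw [List.mem_filter, List.pair_mem_product, List.pair_mem_product, List.mem_range,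
      List.mem_range, List.mem_range, decide_eq_true_eq] at ht
    obtain ⟨⟨hV, hA, hH⟩, hInv⟩ := ht
    simp only at hInv
    refine ⟨?_, ?_, ?_⟩
    · intro i _ hi
      have := hInv.2.2.1 (mem_bs.2 hi)
      exact Finset.mem_Ico.1 this
    · intro m hm
      rcases Nat.lt_or_ge a0 m with h0 | h0
      · exact GD_budget h01 hqb h512 hlen hInv h0 (by omega)
      · have : bs A ∩ Finset.Ico (2 ^ m) (2 ^ (m + 1)) = ∅ := by
          rw [Finset.eq_empty_iff_forall_notMem]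
          intro i hi
          rw [Finset.mem_inter, Finset.mem_Ico] at hi
          have h1 := Finset.mem_Ico.1 (hInv.2.2.1 hi.1)
          have h2 : 2 ^ (m + 1) ≤ 2 ^ (a0 + 1) := Nat.pow_le_pow_right (by norm_num) (by omega)
          omega
        simp only [cnt]
        rw [this]
        simp
    · obtain ⟨i, hi, hF⟩ := Inv.good hInv
      have hi' := Finset.mem_Ico.1 hi
      refine ⟨i, hi'.2, hi'.1, ?_⟩
      rw [hs i hi V hV A hA, hF]
      congr 2
      simp [mem_bs]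
  · intro V hV hleg
    obtain ⟨A, H, hInv⟩ := ht1 (bs V) (GD_legal.2 hleg)
    have hA : ∀ i ∈ A, i < 2 ^ (a1 + 1) := fun i hi => (Finset.mem_Ico.1 (hInv.2.2.1 hi)).2
    have hH : ∀ i ∈ H, i < 2 ^ (a0 + 4 + 1) := fun i hi => (Finset.mem_Ico.1 (hInv.2.1 hi)).2
    refine ⟨(V, mask (fun i => decide (i ∈ A)) (2 ^ (a1 + 1)),
      mask (fun i => decide (i ∈ H)) (2 ^ (a0 + 4 + 1))), ?_, rfl⟩
    rw [List.mem_filter, List.pair_mem_product, List.pair_mem_product, List.mem_range,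
      List.mem_range, List.mem_range, decide_eq_true_eq]
    simp only
    rw [bs_mask A _ hA, bs_mask H _ hH]
    exact ⟨⟨hV, mask_lt _ _, mask_lt _ _⟩, hInv⟩
  · rintro ⟨V, A, H⟩ ht V' hV' hsub hleg
    rw [List.mem_filter, decide_eq_true_eq] at ht
    simp only at ht hsub ⊢
    obtain ⟨A', H', hAA, hHH, hInv⟩ := ht2 _ _ _ ht.2 (bs V') (sub_iff.1 hsub) (GD_legal.2 hleg)
    have hA : ∀ i ∈ A', i < 2 ^ (a1 + 1) := fun i hi => (Finset.mem_Ico.1 (hInv.2.2.1 hi)).2
    have hH : ∀ i ∈ H', i < 2 ^ (a0 + 4 + 1) := fun i hi => (Finset.mem_Ico.1 (hInv.2.1 hi)).2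
    refine ⟨(V', mask (fun i => decide (i ∈ A')) (2 ^ (a1 + 1)),
      mask (fun i => decide (i ∈ H')) (2 ^ (a0 + 4 + 1))), ?_, rfl, ?_, ?_⟩
    · rw [List.mem_filter, List.pair_mem_product, List.pair_mem_product, List.mem_range,
        List.mem_range, List.mem_range, decide_eq_true_eq]
      simp only
      rw [bs_mask A' _ hA, bs_mask H' _ hH]
      exact ⟨⟨hV', mask_lt _ _, mask_lt _ _⟩, hInv⟩
    · rw [sub_iff, bs_mask A' _ hA]
      exact hAA
    · rw [sub_iff, bs_mask H' _ hH]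
      exact hHH

end

end Pool.Agent.LibRandTT
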