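import Mathlib
import Pool.Agent.LibRandTT.CheckExists

/-!
The global effective construction: all requirements are played in parallel, each on its own
interval of lengths.
-/

namespace Pool.Agent.LibRandTT

open Nat.Partrec Encodable Denumerable

/-- bounded monotone sequences are eventually constant -/
lemma eventually_const {f : ℕ → ℕ} (hf : Monotone f) {b : ℕ} (hb : ∀ s, f s ≤ b) :
    ∃ s1, ∀ s ≥ s1, f s = f s1 := by
  refine ⟨Function.argmin (fun s => b - f s), fun s hs => ?_⟩
  have h1 := Function.argmin_le (fun s => b - f s) s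
  have h2 := hf hs
  have h3 := hb s
  omega

section

variable (B : ℕ → ℕ) (c : Code)

/-- lower ends of the intervals of lengths -/
def a0 : ℕ → ℕ
  | 0 => 100
  | e + 1 => 2 * (a0 e + 4) + B e

/-- upper ends -/
def a1 (e : ℕ) : ℕ := a0 B (e + 1)

lemma a0_lt_a1 (e : ℕ) : a0 B e < a1 B e := by
  unfold a1
  rw [a0]
  omega

lemma a0_strictMono : StrictMono (a0 B) := strictMono_nat_of_lt_succ (a0_lt_a1 B)

open Classical in
/-- winning table found before stage `s` -/
noncomputable def found (e s : ℕ) : Option (List (ℕ × ℕ × ℕ)) :=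
  ((List.range s).filterMap (fun k => (decode (α := ℕ × List (ℕ × ℕ × ℕ)) k).bind
    (fun p => if check (a0 B e) (a1 B e) e p.1 p.2 then some p.2 else none))).head?

open Classical in
/-- answer of the builder -/
noncomputable def respond (T : List (ℕ × ℕ × ℕ)) (V : ℕ) (p : ℕ × ℕ) : ℕ × ℕ :=
  ((T.filter (fun t => decide (t.1 = V ∧ sub p.1 t.2.1 ∧ sub p.2 t.2.2))).map
    (fun t => t.2)).head?.getD p

open Classical in
/-- environment mask -/
noncomputable def env (e s : ℕ) (S : ℕ → ℕ × ℕ) : ℕ :=
  mask (fun i => decide ((Code.evaln s c (encode (str i))).isSome = true ∨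
    (i < 2 ^ (a0 B e + 1) ∧ ∃ e' < e, (S e').1.testBit i = true))) (2 ^ (a1 B e + 1))

/-- next state of requirement `e` -/
noncomputable def nxt (e s : ℕ) (S : ℕ → ℕ × ℕ) : ℕ × ℕ :=
  ((found B e s).map (fun T => respond T (env B c e s S) (S e))).getD (S e)

/-- state of requirement `e` at stage `s` -/
noncomputable def St : ℕ → ℕ → ℕ × ℕ
  | 0, _ => (0, 0)
  | s + 1, e => nxt B c e s (St s)

variable {B c}

lemma found_spec {e s : ℕ} {T : List (ℕ × ℕ × ℕ)} (h : found B e s = some T) :
    ∃ k, check (a0 B e) (a1 B e) e k T := by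
  unfold found at h
  have h1 := List.mem_of_mem_head? (Option.mem_def.2 h)
  rw [List.mem_filterMap] at h1
  obtain ⟨k, -, hk⟩ := h1
  rw [Option.bind_eq_some_iff] at hk
  obtain ⟨p, -, hp⟩ := hk
  split_ifs at hp with hc
  exact ⟨p.1, by rw [← Option.some.inj hp]; exact hc⟩

lemma found_succ {e s : ℕ} {T : List (ℕ × ℕ × ℕ)} (h : found B e s = some T) :
    found B e (s + 1) = some T := by
  unfold found at h ⊢
  rw [List.range_succ, List.filterMap_append, List.head?_append, h]
  rfl

lemma found_mono {e s s' : ℕ} {T : List (ℕ × ℕ × ℕ)} (hs : s ≤ s') (h : found B e s = some T) :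
    found B e s' = some T := by
  induction s', hs using Nat.le_induction with
  | base => exact h
  | succ n _ ih => exact found_succ ih

lemma found_exists {e k : ℕ} {T : List (ℕ × ℕ × ℕ)} (h : check (a0 B e) (a1 B e) e k T) :
    ∃ s T', found B e s = some T' := by
  refine ⟨encode (k, T) + 1, ?_⟩
  rw [← Option.isSome_iff_exists]
  unfold found
  rw [List.isSome_head?]
  intro hnil
  rw [List.filterMap_eq_nil_iff] at hnil
  have := hnil (encode (k, T)) (by simp)
  rw [encodek] at this
  simp [h] at this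

lemma respond_cases (T : List (ℕ × ℕ × ℕ)) (V : ℕ) (p : ℕ × ℕ) :
    respond T V p = p ∨ ∃ t ∈ T, t.1 = V ∧ sub p.1 t.2.1 ∧ sub p.2 t.2.2 ∧ respond T V p = t.2 := by
  classical
  unfold respond
  cases h : ((T.filter (fun t => decide (t.1 = V ∧ sub p.1 t.2.1 ∧ sub p.2 t.2.2))).map
    (fun t => t.2)).head? with
  | none => left; rfl
  | some r =>
    right
    have h1 := List.mem_of_mem_head? (Option.mem_def.2 h)
    rw [List.mem_map] at h1
    obtain ⟨t, ht, rfl⟩ := h1
    rw [List.mem_filter, decide_eq_true_eq] at ht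
    exact ⟨t, ht.1, ht.2.1, ht.2.2.1, ht.2.2.2, rfl⟩

lemma respond_mem {T : List (ℕ × ℕ × ℕ)} {V : ℕ} {p : ℕ × ℕ}
    (h : ∃ t ∈ T, t.1 = V ∧ sub p.1 t.2.1 ∧ sub p.2 t.2.2) :
    (V, respond T V p) ∈ T := by
  classical
  unfold respond
  cases h' : ((T.filter (fun t => decide (t.1 = V ∧ sub p.1 t.2.1 ∧ sub p.2 t.2.2))).map
    (fun t => t.2)).head? with
  | none =>
    exfalso
    rw [List.head?_eq_none_iff, List.map_eq_nil_iff, List.filter_eq_nil_iff] at h'
    obtain ⟨t, ht, h1⟩ := h
    have := h' t ht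
    simp only [decide_eq_true_eq] at this
    exact this h1
  | some r =>
    have h1 := List.mem_of_mem_head? (Option.mem_def.2 h')
    rw [List.mem_map] at h1
    obtain ⟨t, ht, rfl⟩ := h1
    rw [List.mem_filter, decide_eq_true_eq] at ht
    rcases t with ⟨tV, tA, tH⟩
    simp only at ht ⊢
    rw [← ht.2.1]
    exact ht.1

lemma respond_sub (T : List (ℕ × ℕ × ℕ)) (V : ℕ) (p : ℕ × ℕ) :
    sub p.1 (respond T V p).1 ∧ sub p.2 (respond T V p).2 := by
  rcases respond_cases T V p with h | ⟨t, -, -, h1, h2, h3⟩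
  · rw [h]; exact ⟨sub_refl _, sub_refl _⟩
  · rw [h3]; exact ⟨h1, h2⟩

lemma St_succ_sub (s e : ℕ) :
    sub (St B c s e).1 (St B c (s + 1) e).1 ∧ sub (St B c s e).2 (St B c (s + 1) e).2 := by
  rw [St]
  unfold nxt
  cases found B e s with
  | none => exact ⟨sub_refl _, sub_refl _⟩
  | some T => exact respond_sub _ _ _

lemma St_mono {s s' : ℕ} (h : s ≤ s') (e : ℕ) :
    sub (St B c s e).1 (St B c s' e).1 ∧ sub (St B c s e).2 (St B c s' e).2 := by
  induction s', h using Nat.le_induction with
  | base => exact ⟨sub_refl _, sub_refl _⟩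
  | succ n _ ih =>
    exact ⟨sub_trans ih.1 (St_succ_sub n e).1, sub_trans ih.2 (St_succ_sub n e).2⟩

lemma testBit_env {e s i : ℕ} {S : ℕ → ℕ × ℕ} : (env B c e s S).testBit i = true ↔
    i < 2 ^ (a1 B e + 1) ∧ ((Code.evaln s c (encode (str i))).isSome = true ∨
    (i < 2 ^ (a0 B e + 1) ∧ ∃ e' < e, (S e').1.testBit i = true)) := by
  unfold env
  rw [testBit_mask]
  simp

lemma evaln_isSome_mono {s s' x : ℕ} (h : s ≤ s') (hx : (Code.evaln s c x).isSome = true) :
    (Code.evaln s' c x).isSome = true := by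
  rw [Option.isSome_iff_exists] at hx ⊢
  obtain ⟨y, hy⟩ := hx
  exact ⟨y, Code.evaln_mono h hy⟩

lemma env_mono {s s' : ℕ} (h : s ≤ s') (e : ℕ) :
    sub (env B c e s (St B c s)) (env B c e s' (St B c s')) := by
  rw [sub_iff']
  intro i hi
  rw [testBit_env] at hi ⊢
  refine ⟨hi.1, ?_⟩
  rcases hi.2 with h1 | ⟨h1, e', he', h2⟩
  · exact Or.inl (evaln_isSome_mono h h1)
  · exact Or.inr ⟨h1, e', he', sub_iff'.1 (St_mono h e').1 i h2⟩

/-- the r.e. set given by the code -/
def NV (c : Code) (y : List Bool) : Prop := (c.eval (encode y)).Dom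

lemma NV_iff (y : List Bool) : NV c y ↔ ∃ s, (Code.evaln s c (encode y)).isSome = true := by
  unfold NV
  rw [Part.dom_iff_mem]
  constructor
  · rintro ⟨z, hz⟩
    obtain ⟨k, hk⟩ := Code.evaln_complete.1 hz
    exact ⟨k, Option.isSome_iff_exists.2 ⟨z, hk⟩⟩
  · rintro ⟨s, hs⟩
    obtain ⟨z, hz⟩ := Option.isSome_iff_exists.1 hs
    exact ⟨z, Code.evaln_sound hz⟩

lemma str_injOn : Set.InjOn str {i | i ≠ 0} := fun i hi j hj h => by
  rw [← num_str hi, ← num_str hj, h]

lemma env_legal (hNV : ∀ m (S : Finset (List Bool)), (∀ y ∈ S, y.length = m ∧ NV c y) →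
    32 * S.card ≤ 2 ^ m) (e s : ℕ) (S : ℕ → ℕ × ℕ) :
    legal (a0 B e) (a1 B e) (env B c e s S) := by
  refine ⟨mask_lt _ _, fun m _ hm => ?_⟩
  have := hNV m ((bs (env B c e s S) ∩ Finset.Ico (2 ^ m) (2 ^ (m + 1))).image str) ?_
  · rw [Finset.card_image_of_injOn] at this
    · exact this
    · intro i hi j hj h
      have hi' := (Finset.mem_Ico.1 (Finset.mem_inter.1 (Finset.mem_coe.1 hi)).2).1
      have hj' := (Finset.mem_Ico.1 (Finset.mem_inter.1 (Finset.mem_coe.1 hj)).2).1
      have hp : 0 < 2 ^ m := by positivity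
      exact str_injOn (show i ≠ 0 by omega) (show j ≠ 0 by omega) h
  · intro y hy
    rw [Finset.mem_image] at hy
    obtain ⟨i, hi, rfl⟩ := hy
    rw [Finset.mem_inter, mem_bs, testBit_env, Finset.mem_Ico] at hi
    obtain ⟨⟨h1, h2⟩, h3, h4⟩ := hi
    have hp : 0 < 2 ^ m := by positivity
    refine ⟨?_, ?_⟩
    · rw [str_length]
      exact (Nat.log_eq_iff (Or.inr ⟨by norm_num, by omega⟩)).2 ⟨h3, h4⟩
    · rw [NV_iff]
      rcases h2 with h2 | ⟨h2, -⟩
      · exact ⟨s, h2⟩
      · exfalso
        have : 2 ^ (a0 B e + 1) ≤ 2 ^ m := Nat.pow_le_pow_right (by norm_num) (by omega)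
        omega

/-- invariant of the builder sets -/
lemma St_range (s e : ℕ) :
    (∀ i, (St B c s e).1.testBit i = true → 2 ^ (a0 B e + 1) ≤ i ∧ i < 2 ^ (a1 B e + 1)) ∧
    (∀ m < a1 B e + 1, 4 * cnt (St B c s e).1 m ≤ 2 ^ m) := by
  induction s with
  | zero =>
    constructor
    · intro i hi
      simp [St] at hi
    · intro m _
      have : bs 0 = ∅ := by
        ext i; simp
      simp [St, cnt, this]
  | succ s ih =>
    rw [St]
    unfold nxt
    cases h : found B e s with
    | none => exact ih
    | some T =>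
      simp only [Option.map_some, Option.getD_some]
      rcases respond_cases T (env B c e s (St B c s)) (St B c s e) with h1 | ⟨t, ht, -, -, -, h1⟩
      · rw [h1]; exact ih
      · rw [h1]
        obtain ⟨k, hk⟩ := found_spec h
        obtain ⟨g1, g2, -⟩ := hk.1 t ht
        refine ⟨fun i hi => ?_, g2⟩
        have hlt : i < t.2.1 :=
          lt_of_lt_of_le Nat.lt_two_pow_self (Nat.ge_two_pow_of_testBit hi)
        exact g1 i hlt hi

/-- the set enumerated by the builder -/
def Wset (B : ℕ → ℕ) (c : Code) (y : List Bool) : Prop :=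
  ∃ e s, (St B c s e).1.testBit (num y) = true

/-- the constructed r.e. set of inputs -/
def Hset (B : ℕ → ℕ) (c : Code) (x : List Bool) : Prop :=
  ∃ e s, x.length = a0 B e + 4 ∧ (St B c s e).2.testBit (num x) = true

lemma table_step (hNV : ∀ m (S : Finset (List Bool)), (∀ y ∈ S, y.length = m ∧ NV c y) →
    32 * S.card ≤ 2 ^ m) {e s k : ℕ} {T : List (ℕ × ℕ × ℕ)}
    (hT : ∀ s' ≥ s, found B e s' = some T) (hck : check (a0 B e) (a1 B e) e k T)
    (h0 : (∀ s' ≤ s, St B c s' e = (0, 0))) :
    ∀ s' ≥ s, (env B c e s' (St B c s'), St B c (s' + 1) e) ∈ T := by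
  intro s' hs'
  induction s', hs' using Nat.le_induction with
  | base =>
    rw [St]
    unfold nxt
    rw [hT s le_rfl]
    simp only [Option.map_some, Option.getD_some]
    apply respond_mem
    obtain ⟨t, ht, htV⟩ := hck.2.1 (env B c e s (St B c s)) (mask_lt _ _) (env_legal hNV e s _)
    refine ⟨t, ht, htV, ?_, ?_⟩
    · rw [h0 s le_rfl]; exact zero_sub _
    · rw [h0 s le_rfl]; exact zero_sub _
  | succ n hn ih =>
    have hst : St B c (n + 1 + 1) e =
        respond T (env B c e (n + 1) (St B c (n + 1))) (St B c (n + 1) e) := by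
      rw [St]
      unfold nxt
      rw [hT (n + 1) (by omega)]
      rfl
    rw [hst]
    apply respond_mem
    obtain ⟨t, ht, htV, h1, h2⟩ := hck.2.2 _ ih (env B c e (n + 1) (St B c (n + 1))) (mask_lt _ _)
      (env_mono (Nat.le_succ n) e) (env_legal hNV e (n + 1) _)
    exact ⟨t, ht, htV, h1, h2⟩

lemma St_zero_of_none {e s : ℕ} (h : ∀ s' < s, found B e s' = Option.none) :
    ∀ s' ≤ s, St B c s' e = (0, 0) := by
  intro s' hs'
  induction s' with
  | zero => rfl
  | succ n ih =>
    rw [St]
    unfold nxt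
    rw [h n (by omega)]
    simp only [Option.map_none, Option.getD_none]
    exact ih (by omega)

/-- a satisfied requirement in the limit -/
theorem requirement (hNV : ∀ m (S : Finset (List Bool)), (∀ y ∈ S, y.length = m ∧ NV c y) →
    32 * S.card ≤ 2 ^ m) {e qb : ℕ} {q : List Bool → List (List Bool)}
    {g : List Bool → List Bool → Bool} (hqb : 1 ≤ qb) (h512 : 512 * qb ^ 2 ≤ 2 ^ a0 B e)
    (hlen : ∀ x : List Bool, x.length = a0 B e + 4 → (q x).length ≤ qb)
    (hq : ∀ x, encode (q x) ∈ (cq e).eval (encode x))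
    (hg : ∀ x ans, encode (g x ans) ∈ (cg e).eval (encode (x, ans)))
    (hlong : ∀ x : List Bool, x.length = a0 B e + 4 → ∀ y ∈ q x, a1 B e < y.length → NV c y) :
    ∃ x : List Bool, x.length = a0 B e + 4 ∧
      ∀ (dec : ∀ y, Decidable (¬ (NV c y ∨ Wset B c y))) (dec' : Decidable (Hset B c x)),
      g x ((q x).map (fun y => decide (¬ (NV c y ∨ Wset B c y)))) = !(decide (Hset B c x)) := by
  classical
  obtain ⟨k, T0, hck0⟩ := check_exists (e := e) (a0_lt_a1 B e).le hqb h512 hlen hq hg
  obtain ⟨s1, T1, hf1⟩ := found_exists hck0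
  -- first stage
  have hex : ∃ s, (found B e s).isSome = true := ⟨s1, by rw [hf1]; rfl⟩
  obtain ⟨T, hT⟩ := Option.isSome_iff_exists.1 (Nat.find_spec hex)
  set s0 := Nat.find hex with hs0
  have hTall : ∀ s' ≥ s0, found B e s' = some T := fun s' hs' => found_mono hs' hT
  have hnone : ∀ s' < s0, found B e s' = Option.none := fun s' hs' => by
    have := Nat.find_min hex hs'
    simpa using this
  obtain ⟨k1, hck⟩ := found_spec hT
  have hmem := table_step hNV hTall hck (St_zero_of_none (c := c) hnone)
  -- stabilisation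
  have hV : ∃ s2, ∀ s ≥ s2, env B c e s (St B c s) = env B c e s2 (St B c s2) :=
    eventually_const (f := fun s => env B c e s (St B c s)) (fun s s' h => sub_le (env_mono h e))
      (b := 2 ^ 2 ^ (a1 B e + 1)) (fun s => (mask_lt _ _).le)
  have hA : ∃ s2, ∀ s ≥ s2, (St B c s e).1 = (St B c s2 e).1 :=
    eventually_const (f := fun s => (St B c s e).1) (fun s s' h => sub_le (St_mono h e).1)
      (b := 2 ^ 2 ^ (a1 B e + 1)) (fun s => (lt_two_pow_of_bits fun i hi =>
        ((St_range s e).1 i hi).2).le)
  have hH : ∃ s2, ∀ s ≥ s2, (St B c s e).2 = (St B c s2 e).2 := by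
    refine eventually_const (f := fun s => (St B c s e).2) (fun s s' h => sub_le (St_mono h e).2)
      (b := (T.map (fun t => t.2.2)).sum) (fun s => ?_)
    rcases Nat.lt_or_ge s0 s with h | h
    · have h1 := hmem (s - 1) (by omega)
      rw [show s - 1 + 1 = s by omega] at h1
      exact List.single_le_sum (by simp) _ (List.mem_map.2 ⟨_, h1, rfl⟩)
    · rw [St_zero_of_none (c := c) hnone s h]
      exact Nat.zero_le _
  obtain ⟨sV, hsV⟩ := hV
  obtain ⟨sA, hsA⟩ := hA
  obtain ⟨sH, hsH⟩ := hH
  set s := max s0 (max sV (max sA sH)) with hs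
  have hs_0 : s0 ≤ s := le_max_left _ _
  have hs_V : sV ≤ s := (le_max_left _ _).trans (le_max_right _ _)
  have hs_A : sA ≤ s := (le_max_left _ _).trans ((le_max_right _ _).trans (le_max_right _ _))
  have hs_H : sH ≤ s := (le_max_right _ _).trans ((le_max_right _ _).trans (le_max_right _ _))
  have hfin := hmem s hs_0
  have hstA : (St B c (s + 1) e).1 = (St B c sA e).1 := hsA (s + 1) (by omega)
  have hstH : (St B c (s + 1) e).2 = (St B c sH e).2 := hsH (s + 1) (by omega)
  have hstV : env B c e s (St B c s) = env B c e sV (St B c sV) := hsV s hs_V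
  obtain ⟨-, -, i, hi1, hi2, hF⟩ := hck.1 _ hfin
  simp only at hF
  have hi0 : i ≠ 0 := by
    have : 0 < 2 ^ (a0 B e + 4) := by positivity
    omega
  have hlenx : (str i).length = a0 B e + 4 := by
    rw [str_length]
    exact (Nat.log_eq_iff (Or.inr ⟨by norm_num, hi0⟩)).2 ⟨hi2, hi1⟩
  refine ⟨str i, hlenx, fun dec dec' => ?_⟩
  -- soundness of Fev
  unfold Fev at hF
  rw [Option.bind_eq_some_iff] at hF
  obtain ⟨r, hr, hF⟩ := hF
  have hr' : r = encode (q (str i)) := Part.mem_unique (Code.evaln_sound hr) (hq _)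
  subst hr'
  rw [encodek] at hF
  simp only [Option.bind_some] at hF
  rw [Option.bind_eq_some_iff] at hF
  obtain ⟨r, hr2, hF⟩ := hF
  have hr' := Part.mem_unique (Code.evaln_sound hr2) (hg _ _)
  subst hr'
  rw [encodek] at hF
  have hF' := Option.some.inj hF
  have hHiff : decide (Hset B c (str i)) = (St B c (s + 1) e).2.testBit i := by
    rw [Bool.eq_iff_iff, decide_eq_true_eq]
    unfold Hset
    rw [num_str hi0]
    constructor
    · rintro ⟨e', s', h1, h2⟩
      have hee : e' = e := by
        apply (a0_strictMono B).injective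
        omega
      subst hee
      have h3 := sub_iff'.1 (St_mono (B := B) (c := c) (le_max_left s' (s + 1)) e').2 i h2
      rw [hsH (max s' (s + 1)) ((show sH ≤ s + 1 by omega).trans (le_max_right _ _))] at h3
      rw [hstH]
      exact h3
    · intro h
      exact ⟨e, s + 1, hlenx, h⟩
  rw [hHiff, ← hF']
  congr 1
  unfold ansv
  apply List.map_congr_left
  intro y hy
  rw [Bool.eq_iff_iff, decide_eq_true_eq, decide_eq_true_eq]
  by_cases hly : a1 B e < y.length
  · have h1 : ¬ num y < 2 ^ (a1 B e + 1) := by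
      have h2 := (num_bounds y).1
      have h3 : 2 ^ (a1 B e + 1) ≤ 2 ^ y.length := Nat.pow_le_pow_right (by norm_num) hly
      omega
    have h2 := hlong _ hlenx y hy hly
    tauto
  · have h1 : num y < 2 ^ (a1 B e + 1) := by
      have h2 := (num_bounds y).2
      have h3 : 2 ^ (y.length + 1) ≤ 2 ^ (a1 B e + 1) :=
        Nat.pow_le_pow_right (by norm_num) (by omega)
      omega
    have key : (NV c y ∨ Wset B c y) ↔ ((env B c e s (St B c s)).testBit (num y) = true ∨
        (St B c (s + 1) e).1.testBit (num y) = true) := by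
      constructor
      · rintro (h | ⟨e', s', h⟩)
        · left
          obtain ⟨s', hs'⟩ := (NV_iff y).1 h
          have h2 : (env B c e (max s' s) (St B c (max s' s))).testBit (num y) = true := by
            rw [testBit_env]
            refine ⟨h1, Or.inl ?_⟩
            rw [str_num]
            exact evaln_isSome_mono (le_max_left _ _) hs'
          rw [hstV, ← hsV (max s' s) (hs_V.trans (le_max_right _ _))]
          exact h2
        · rcases lt_trichotomy e' e with he | he | he
          · left
            have h2 : (env B c e (max s' s) (St B c (max s' s))).testBit (num y) = true := by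
              rw [testBit_env]
              refine ⟨h1, Or.inr ⟨?_, e', he, sub_iff'.1 (St_mono (le_max_left _ _) e').1 _ h⟩⟩
              have h3 := ((St_range s' e').1 _ h).2
              have h4 : a1 B e' ≤ a0 B e := (a0_strictMono B).monotone (by omega)
              exact lt_of_lt_of_le h3 (Nat.pow_le_pow_right (by norm_num) (by omega))
            rw [hstV, ← hsV (max s' s) (hs_V.trans (le_max_right _ _))]
            exact h2
          · right
            subst he
            have h3 := sub_iff'.1 (St_mono (B := B) (c := c) (le_max_left s' (s + 1)) e').1 _ h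
            rw [hsA (max s' (s + 1)) ((show sA ≤ s + 1 by omega).trans (le_max_right _ _))] at h3
            rw [hstA]
            exact h3
          · exfalso
            have h3 := ((St_range s' e').1 _ h).1
            have h4 : a1 B e ≤ a0 B e' := (a0_strictMono B).monotone (by omega)
            have h5 : 2 ^ (a1 B e + 1) ≤ 2 ^ (a0 B e' + 1) :=
              Nat.pow_le_pow_right (by norm_num) (by omega)
            omega
      · rintro (h | h)
        · rw [testBit_env] at h
          rcases h.2 with h2 | ⟨-, e', -, h2⟩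
          · left
            rw [str_num] at h2
            exact (NV_iff y).2 ⟨_, h2⟩
          · right
            exact ⟨e', s, h2⟩
        · right
          exact ⟨e, s + 1, h⟩
    rw [key]
    tauto

/-- at most a quarter of the strings of each length are enumerated by the builder -/
lemma W_count (m : ℕ) (S : Finset (List Bool)) (hS : ∀ y ∈ S, y.length = m ∧ Wset B c y) :
    4 * S.card ≤ 2 ^ m := by
  classical
  rcases S.eq_empty_or_nonempty with h0 | ⟨y0, hy0⟩
  · subst h0; simp
  -- all witnesses have the same requirement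
  obtain ⟨hm0, e0, s00, hb0⟩ := hS y0 hy0
  have huniq : ∀ y ∈ S, ∃ s, (St B c s e0).1.testBit (num y) = true := by
    intro y hy
    obtain ⟨hm, e, s, hb⟩ := hS y hy
    have hee : e = e0 := by
      by_contra hne
      have r1 := (St_range s e).1 _ hb
      have r2 := (St_range s00 e0).1 _ hb0
      have n1 := num_bounds y
      have n2 := num_bounds y0
      rw [hm] at n1
      rw [hm0] at n2
      have p1 : a0 B e < m := by
        by_contra hcon
        have : 2 ^ (m + 1) ≤ 2 ^ (a0 B e + 1) := Nat.pow_le_pow_right (by norm_num) (by omega)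
        omega
      have p2 : m ≤ a1 B e := by
        by_contra hcon
        have : 2 ^ (a1 B e + 1) ≤ 2 ^ m := Nat.pow_le_pow_right (by norm_num) (by omega)
        omega
      have p3 : a0 B e0 < m := by
        by_contra hcon
        have : 2 ^ (m + 1) ≤ 2 ^ (a0 B e0 + 1) := Nat.pow_le_pow_right (by norm_num) (by omega)
        omega
      have p4 : m ≤ a1 B e0 := by
        by_contra hcon
        have : 2 ^ (a1 B e0 + 1) ≤ 2 ^ m := Nat.pow_le_pow_right (by norm_num) (by omega)
        omega
      rcases Nat.lt_or_gt_of_ne hne with h | h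
      · have : a1 B e ≤ a0 B e0 := (a0_strictMono B).monotone (by omega)
        omega
      · have : a1 B e0 ≤ a0 B e := (a0_strictMono B).monotone (by omega)
        omega
    exact ⟨s, hee ▸ hb⟩
  choose! f hf using huniq
  set s := S.sup f
  have hall : ∀ y ∈ S, (St B c s e0).1.testBit (num y) = true := fun y hy =>
    sub_iff'.1 (St_mono (Finset.le_sup hy) e0).1 _ (hf y hy)
  have hsub : S.image num ⊆ bs (St B c s e0).1 ∩ Finset.Ico (2 ^ m) (2 ^ (m + 1)) := by
    intro i hi
    rw [Finset.mem_image] at hi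
    obtain ⟨y, hy, rfl⟩ := hi
    rw [Finset.mem_inter, mem_bs, Finset.mem_Ico]
    have := num_bounds y
    rw [(hS y hy).1] at this
    exact ⟨hall y hy, this⟩
  have hcard := Finset.card_le_card hsub
  rw [Finset.card_image_of_injective _ num_injective] at hcard
  have hm1 : m < a1 B e0 + 1 := by
    by_contra hcon
    have r2 := (St_range s00 e0).1 _ hb0
    have n2 := num_bounds y0
    rw [hm0] at n2
    have : 2 ^ (a1 B e0 + 1) ≤ 2 ^ m := Nat.pow_le_pow_right (by norm_num) (by omega)
    omega
  have := (St_range (B := B) (c := c) s e0).2 m hm1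
  unfold cnt at this
  omega

end

end Pool.Agent.LibRandTT
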