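import Mathlib
import Pool.Agent.LibRandTT.Dyn

/-!
The construction is effective.
-/

namespace Pool.Agent.LibRandTT

open Nat.Partrec Encodable Denumerable

section

variable {B : ℕ → ℕ} {c : Code}

lemma primrec_a0 (hB : Primrec B) : Primrec (a0 B) := by
  have h : Primrec fun n : ℕ => (Nat.rec 100 (fun e r => 2 * (r + 4) + B e) n : ℕ) :=
    Primrec.nat_rec' (f := fun n : ℕ => n) (g := fun _ => 100)
      (h := fun (_ : ℕ) (p : ℕ × ℕ) => 2 * (p.2 + 4) + B p.1) Primrec.id (Primrec.const 100)
      (Primrec.nat_add.comp (Primrec.nat_mul.comp (Primrec.const 2)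
        (Primrec.nat_add.comp (Primrec.snd.comp Primrec.snd) (Primrec.const 4)))
        (hB.comp (Primrec.fst.comp Primrec.snd))).to₂
  refine h.of_eq fun n => ?_
  induction n with
  | zero => rfl
  | succ n ih => rw [a0, ← ih]

lemma primrec_a1 (hB : Primrec B) : Primrec (a1 B) := (primrec_a0 hB).comp Primrec.succ

lemma primrec_found (hB : Primrec B) : Primrec₂ (found B) := by
  classical
  unfold found
  refine Primrec.list_head?.comp (Primrec.listFilterMap (Primrec.list_range.comp Primrec.snd) ?_)
  refine Primrec.option_bind (Primrec.decode.comp Primrec.snd) ?_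
  have he : Primrec fun p : ((ℕ × ℕ) × ℕ) × (ℕ × List (ℕ × ℕ × ℕ)) => p.1.1.1 :=
    Primrec.fst.comp (Primrec.fst.comp Primrec.fst)
  have hc := primrec_check ((primrec_a0 hB).comp he) ((primrec_a1 hB).comp he) he
    (Primrec.fst.comp Primrec.snd) (Primrec.snd.comp Primrec.snd)
  exact Primrec.ite hc (Primrec.option_some.comp (Primrec.snd.comp Primrec.snd))
    (Primrec.const Option.none)

lemma primrec_respond {α : Type} [Primcodable α] {T : α → List (ℕ × ℕ × ℕ)} {V : α → ℕ}
    {p : α → ℕ × ℕ} (hT : Primrec T) (hV : Primrec V) (hp : Primrec p) :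
    Primrec fun a => respond (T a) (V a) (p a) := by
  classical
  unfold respond
  refine Primrec.option_getD.comp (Primrec.list_head?.comp (Primrec.list_map
    (PP.filter (p := fun a (t : ℕ × ℕ × ℕ) => t.1 = V a ∧ sub (p a).1 t.2.1 ∧ sub (p a).2 t.2.2)
      hT ?_) ?_)) hp
  · exact (PP.eq (Primrec.fst.comp Primrec.snd) (hV.comp Primrec.fst)).and
      ((primrecRel_sub.comp (Primrec.fst.comp (hp.comp Primrec.fst))
        (Primrec.fst.comp (Primrec.snd.comp Primrec.snd))).and
      (primrecRel_sub.comp (Primrec.snd.comp (hp.comp Primrec.fst))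
        (Primrec.snd.comp (Primrec.snd.comp Primrec.snd))))
  · exact (Primrec.snd.comp Primrec.snd)

/-- states read from a list -/
def rd (L : List (ℕ × ℕ)) (e : ℕ) : ℕ × ℕ := L.getD e (0, 0)

lemma primrec_rd : Primrec₂ rd := Primrec.list_getD (0, 0)

lemma primrec_env (hB : Primrec B) {α : Type} [Primcodable α] {e s : α → ℕ}
    {L : α → List (ℕ × ℕ)} (he : Primrec e) (hs : Primrec s) (hL : Primrec L) :
    Primrec fun a => env B c (e a) (s a) (rd (L a)) := by
  classical
  unfold env
  refine primrec_mask (primrec_pow2 (Primrec.succ.comp ((primrec_a1 hB).comp he))) ?_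
  have : PrimrecPred fun q : α × ℕ =>
      (Code.evaln (s q.1) c (encode (str q.2))).isSome = true ∨
      (q.2 < 2 ^ (a0 B (e q.1) + 1) ∧ ∃ e' < e q.1, (rd (L q.1) e').1.testBit q.2 = true) := by
    refine PrimrecPred.or (PP.eq (Primrec.option_isSome.comp (primrec_evaln'
      (hs.comp Primrec.fst) (Primrec.const c)
      (Primrec.encode.comp (primrec_str.comp Primrec.snd)))) (Primrec.const true)) ?_
    refine (PP.lt Primrec.snd (primrec_pow2 (Primrec.succ.comp ((primrec_a0 hB).comp
      (he.comp Primrec.fst))))).and ?_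
    refine PP.exists_lt (f := fun q : α × ℕ => e q.1)
      (p := fun q e' => (rd (L q.1) e').1.testBit q.2 = true) (he.comp Primrec.fst) ?_
    exact PP.testBit (Primrec.fst.comp (primrec_rd.comp (hL.comp (Primrec.fst.comp Primrec.fst))
      Primrec.snd)) (Primrec.snd.comp Primrec.fst)
  exact this.decide

lemma primrec_nxt (hB : Primrec B) {α : Type} [Primcodable α] {e s : α → ℕ}
    {L : α → List (ℕ × ℕ)} (he : Primrec e) (hs : Primrec s) (hL : Primrec L) :
    Primrec fun a => nxt B c (e a) (s a) (rd (L a)) := by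
  unfold nxt
  refine Primrec.option_getD.comp (Primrec.option_map ((primrec_found hB).comp he hs) ?_)
    (primrec_rd.comp hL he)
  exact primrec_respond Primrec.snd
    (primrec_env hB (he.comp Primrec.fst) (hs.comp Primrec.fst) (hL.comp Primrec.fst))
    (primrec_rd.comp (hL.comp Primrec.fst) (he.comp Primrec.fst))

lemma nxt_congr {e s : ℕ} {S S' : ℕ → ℕ × ℕ} (h : ∀ e' ≤ e, S e' = S' e') :
    nxt B c e s S = nxt B c e s S' := by
  classical
  have h1 : env B c e s S = env B c e s S' := by
    apply eq_of_testBit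
    intro i
    rw [testBit_env, testBit_env]
    have : (∃ e' < e, (S e').1.testBit i = true) ↔ (∃ e' < e, (S' e').1.testBit i = true) := by
      constructor
      · rintro ⟨e', he', h2⟩; exact ⟨e', he', by rw [← h e' he'.le]; exact h2⟩
      · rintro ⟨e', he', h2⟩; exact ⟨e', he', by rw [h e' he'.le]; exact h2⟩
    rw [this]
  unfold nxt
  rw [h1, h e le_rfl]

/-- list of the first `E` states at stage `s` -/
noncomputable def stt (B : ℕ → ℕ) (c : Code) (s E : ℕ) : List (ℕ × ℕ) :=
  (List.range E).map (St B c s)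

lemma rd_stt {s E e : ℕ} (h : e < E) : rd (stt B c s E) e = St B c s e := by
  unfold rd stt
  rw [List.getD_eq_getElem?_getD, List.getElem?_map, List.getElem?_range h]
  rfl

lemma primrec_stt (hB : Primrec B) : Primrec₂ (stt B c) := by
  have h : Primrec fun p : ℕ × ℕ => (Nat.rec ((List.range p.2).map (fun _ => ((0, 0) : ℕ × ℕ)))
      (fun s L => (List.range p.2).map (fun e => nxt B c e s (rd L))) p.1 : List (ℕ × ℕ)) := by
    refine Primrec.nat_rec' (f := fun p : ℕ × ℕ => p.1)
      (g := fun p => (List.range p.2).map (fun _ => ((0, 0) : ℕ × ℕ)))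
      (h := fun (p : ℕ × ℕ) (q : ℕ × List (ℕ × ℕ)) =>
        (List.range p.2).map (fun e => nxt B c e q.1 (rd q.2))) Primrec.fst ?_ ?_
    · exact Primrec.list_map (Primrec.list_range.comp Primrec.snd) (Primrec.const _).to₂
    · refine Primrec.list_map (Primrec.list_range.comp (Primrec.snd.comp Primrec.fst)) ?_
      exact primrec_nxt hB Primrec.snd (Primrec.fst.comp (Primrec.snd.comp Primrec.fst))
        (Primrec.snd.comp (Primrec.snd.comp Primrec.fst))
  refine h.of_eq fun p => ?_
  rcases p with ⟨s, E⟩
  simp only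
  induction s with
  | zero => rfl
  | succ s ih =>
    simp only [ih]
    unfold stt
    apply List.map_congr_left
    intro e he
    rw [List.mem_range] at he
    rw [St]
    apply nxt_congr
    intro e' he'
    exact rd_stt (lt_of_le_of_lt he' he)

lemma primrec_St (hB : Primrec B) : Primrec₂ (St B c) := by
  have : Primrec fun p : ℕ × ℕ => rd (stt B c p.1 (p.2 + 1)) p.2 :=
    primrec_rd.comp ((primrec_stt hB).comp Primrec.fst (Primrec.succ.comp Primrec.snd)) Primrec.snd
  refine this.of_eq fun p => ?_
  exact rd_stt (Nat.lt_succ_self _)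

lemma rePred_of_exists {α : Type} [Primcodable α] {P : α → ℕ → Prop} (hP : PrimrecRel P) :
    REPred fun a => ∃ n, P a n := by
  classical
  have h : Partrec fun a => Nat.rfind fun n => (Part.some (decide (P a n)) : Part Bool) :=
    Partrec.rfind (hP.decide.to_comp).partrec₂
  refine (Partrec.dom_re h).of_eq fun a => ?_
  rw [Nat.rfind_dom]
  simp

lemma Wset_re (hB : Primrec B) : REPred (Wset B c) := by
  have h : REPred fun y => ∃ n : ℕ, (St B c n.unpair.1 n.unpair.2).1.testBit (num y) = true := by
    apply rePred_of_exists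
    exact PP.testBit (Primrec.fst.comp ((primrec_St hB).comp
      (Primrec.fst.comp (Primrec.unpair.comp Primrec.snd))
      (Primrec.snd.comp (Primrec.unpair.comp Primrec.snd)))) (primrec_num.comp Primrec.fst)
  refine h.of_eq fun y => ?_
  unfold Wset
  constructor
  · rintro ⟨n, hn⟩; exact ⟨_, _, hn⟩
  · rintro ⟨e, s, h⟩; exact ⟨Nat.pair s e, by simpa using h⟩

lemma Hset_re (hB : Primrec B) : REPred (Hset B c) := by
  have h : REPred fun y => ∃ n : ℕ, y.length = a0 B n.unpair.2 + 4 ∧
      (St B c n.unpair.1 n.unpair.2).2.testBit (num y) = true := by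
    apply rePred_of_exists
    refine (PP.eq (Primrec.list_length.comp Primrec.fst) (Primrec.nat_add.comp
      ((primrec_a0 hB).comp (Primrec.snd.comp (Primrec.unpair.comp Primrec.snd)))
        (Primrec.const 4))).and ?_
    exact PP.testBit (Primrec.snd.comp ((primrec_St hB).comp
      (Primrec.fst.comp (Primrec.unpair.comp Primrec.snd))
      (Primrec.snd.comp (Primrec.unpair.comp Primrec.snd)))) (primrec_num.comp Primrec.fst)
  refine h.of_eq fun y => ?_
  unfold Hset
  constructor
  · rintro ⟨n, h1, hn⟩; exact ⟨_, _, h1, hn⟩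
  · rintro ⟨e, s, h1, h⟩; exact ⟨Nat.pair s e, by simpa using h1, by simpa using h⟩

end

end Pool.Agent.LibRandTT
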