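import Mathlib

/-!
Definitions used in statements: universal machines on binary strings, plain Kolmogorov
complexity, the set of random strings, the halting set, truth-table reductions.
-/

namespace Pool.Agent.LibRandTT

open Nat.Partrec Encodable Denumerable

/-- Universal machines: `U` is partial recursive and simulates every partial recursive machine `M`
on binary strings through a fixed prefix `w`. -/
def Universal (U : List Bool →. List Bool) : Prop :=
  Partrec U ∧ ∀ M : List Bool →. List Bool, Partrec M → ∃ w : List Bool, ∀ p, U (w ++ p) = M p

/-- Plain Kolmogorov complexity with respect to a machine (`⊤` if there is no program). -/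
noncomputable def Cx (U : List Bool →. List Bool) (σ : List Bool) : ℕ∞ :=
  ⨅ p : List Bool, ⨅ _ : σ ∈ U p, (p.length : ℕ∞)

/-- The strings that are random for plain complexity. -/
def RC (U : List Bool →. List Bool) : Set (List Bool) := {σ | (σ.length : ℕ∞) ≤ Cx U σ}

/-- The halting set: all strings `1^k 0 x` such that program number `k` halts on input `x`. -/
def Halt : Set (List Bool) :=
  {w | ∃ (k : ℕ) (x : List Bool), w = List.replicate k true ++ false :: x ∧
    ((ofNat Code k).eval (encode x)).Dom}

open Classical in
/-- `q, g` is a truth-table reduction of `A` to `B`: on input `x` the queried strings are the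
entries of the list `q x`, and `g x` evaluates the list of answers; both are computable. -/
def TTReduction (q : List Bool → List (List Bool)) (g : List Bool → List Bool → Bool)
    (A B : Set (List Bool)) : Prop :=
  Computable q ∧ Computable₂ g ∧ ∀ x, x ∈ A ↔ g x ((q x).map fun y => decide (y ∈ B)) = true

end Pool.Agent.LibRandTT
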