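import Mathlib
import Pool.Agent.LibRandTT.Comp
import Pool.Agent.LibRandTT.Defs

/-!
Machines: a universal machine `Vm`, a machine `Gm` giving short programs to a small r.e. set,
and plain Kolmogorov complexity.
-/

namespace Pool.Agent.LibRandTT

open Nat.Partrec Encodable Denumerable

/-! ### short programs for a small r.e. set -/

section Short

variable (cw : Code)

/-- stage approximation of the r.e. set with code `cw` -/
def Dn (s i : ℕ) : Bool := (Code.evaln s cw (encode (str i))).isSome

open Classical in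
/-- enumeration list of level `m` -/
noncomputable def lst (m : ℕ) : ℕ → List ℕ
  | 0 => []
  | s + 1 => lst m s ++ (List.range (2 ^ (m + 1))).filter
      (fun i => decide (2 ^ m ≤ i ∧ Dn cw s i = true ∧ i ∉ lst m s))

/-- the machine giving short programs -/
noncomputable def Gm (p : List Bool) : Part (List Bool) :=
  (Nat.rfindOpt fun s => (lst cw (p.length + 2) s)[num p - 2 ^ p.length]?).map str

variable {cw}

lemma lst_mono {m s s' : ℕ} (h : s ≤ s') : lst cw m s <+: lst cw m s' := by
  induction s', h using Nat.le_induction with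
  | base => exact List.prefix_rfl
  | succ n _ ih => exact ih.trans (by rw [lst]; exact List.prefix_append _ _)

lemma lst_nodup (m s : ℕ) : (lst cw m s).Nodup := by
  classical
  induction s with
  | zero => simp [lst]
  | succ s ih =>
    rw [lst, List.nodup_append]
    refine ⟨ih, List.Nodup.filter _ List.nodup_range, ?_⟩
    intro a ha b hb hab
    subst hab
    rw [List.mem_filter, decide_eq_true_eq] at hb
    exact hb.2.2.2 ha

lemma lst_mem {m s i : ℕ} (h : i ∈ lst cw m s) :
    2 ^ m ≤ i ∧ i < 2 ^ (m + 1) ∧ NV cw (str i) := by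
  classical
  induction s with
  | zero => simp [lst] at h
  | succ s ih =>
    rw [lst, List.mem_append] at h
    rcases h with h | h
    · exact ih h
    · rw [List.mem_filter, List.mem_range, decide_eq_true_eq] at h
      refine ⟨h.2.1, h.1, (NV_iff _).2 ⟨s, h.2.2.1⟩⟩

lemma lst_complete {y : List Bool} (h : NV cw y) : ∃ s, num y ∈ lst cw y.length s := by
  classical
  obtain ⟨s, hs⟩ := (NV_iff y).1 h
  refine ⟨s + 1, ?_⟩
  rw [lst, List.mem_append]
  by_cases hm : num y ∈ lst cw y.length s
  · exact Or.inl hm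
  · right
    rw [List.mem_filter, List.mem_range, decide_eq_true_eq]
    refine ⟨(num_bounds y).2, (num_bounds y).1, ?_, hm⟩
    unfold Dn
    rw [str_num]
    exact hs

lemma lst_length (hW : ∀ m (S : Finset (List Bool)), (∀ y ∈ S, y.length = m ∧ NV cw y) →
    4 * S.card ≤ 2 ^ m) (m s : ℕ) : 4 * (lst cw m s).length ≤ 2 ^ m := by
  classical
  have h0 : ∀ i ∈ (lst cw m s).toFinset, i ≠ 0 := by
    intro i hi
    rw [List.mem_toFinset] at hi
    have := (lst_mem hi).1
    have : 0 < 2 ^ m := by positivity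
    omega
  have := hW m ((lst cw m s).toFinset.image str) ?_
  · rw [Finset.card_image_of_injOn] at this
    · rw [List.toFinset_card_of_nodup (lst_nodup m s)] at this
      exact this
    · intro i hi j hj h
      exact str_injOn (h0 i hi) (h0 j hj) h
  · intro y hy
    rw [Finset.mem_image] at hy
    obtain ⟨i, hi, rfl⟩ := hy
    have hi' := hi
    rw [List.mem_toFinset] at hi
    obtain ⟨h1, h2, h3⟩ := lst_mem hi
    refine ⟨?_, h3⟩
    rw [str_length]
    exact (Nat.log_eq_iff (Or.inr ⟨by norm_num, h0 i hi'⟩)).2 ⟨h1, h2⟩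

lemma mem_Gm {p y : List Bool} : y ∈ Gm cw p ↔
    ∃ s i, (lst cw (p.length + 2) s)[num p - 2 ^ p.length]? = some i ∧ str i = y := by
  unfold Gm
  rw [Part.mem_map_iff]
  have hm : ∀ i, i ∈ (Nat.rfindOpt fun s => (lst cw (p.length + 2) s)[num p - 2 ^ p.length]?) ↔
      ∃ s, i ∈ (lst cw (p.length + 2) s)[num p - 2 ^ p.length]? := by
    intro i
    apply Nat.rfindOpt_mono
    intro a m n hmn ha
    have hpre := lst_mono (cw := cw) (m := p.length + 2) hmn
    rw [Option.mem_def] at ha ⊢
    obtain ⟨l, hl⟩ := hpre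
    rw [← hl, List.getElem?_append_left (List.getElem?_eq_some_iff.1 ha).1]
    exact ha
  constructor
  · rintro ⟨i, hi, rfl⟩
    obtain ⟨s, hs⟩ := (hm i).1 hi
    exact ⟨s, i, hs, rfl⟩
  · rintro ⟨s, i, hs, rfl⟩
    exact ⟨i, (hm i).2 ⟨s, hs⟩, rfl⟩

lemma Gm_sound {p y : List Bool} (h : y ∈ Gm cw p) : NV cw y ∧ y.length = p.length + 2 := by
  obtain ⟨s, i, hs, rfl⟩ := mem_Gm.1 h
  obtain ⟨h1, h2, h3⟩ := lst_mem (List.mem_of_getElem? hs)
  refine ⟨h3, ?_⟩
  rw [str_length]
  have : 0 < 2 ^ (p.length + 2) := by positivity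
  exact (Nat.log_eq_iff (Or.inr ⟨by norm_num, by omega⟩)).2 ⟨h1, h2⟩

lemma Gm_complete (hW : ∀ m (S : Finset (List Bool)), (∀ y ∈ S, y.length = m ∧ NV cw y) →
    4 * S.card ≤ 2 ^ m) {y : List Bool} (h : NV cw y) :
    ∃ p : List Bool, p.length + 2 = y.length ∧ y ∈ Gm cw p := by
  obtain ⟨s, hs⟩ := lst_complete h
  obtain ⟨j, hj, hji⟩ := List.getElem_of_mem hs
  have hlen := lst_length hW y.length s
  have hm2 : 2 ≤ y.length := by
    by_contra hcon
    have h1 : 1 ≤ (lst cw y.length s).length := by omega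
    have h2 : 2 ^ y.length ≤ 2 ^ 1 := Nat.pow_le_pow_right (by norm_num) (by omega)
    omega
  obtain ⟨k, hk⟩ : ∃ k, y.length = k + 2 := ⟨y.length - 2, by omega⟩
  have hjk : j < 2 ^ k := by
    rw [hk] at hlen hj
    have : 2 ^ (k + 2) = 4 * 2 ^ k := by ring
    omega
  have hne : 2 ^ k + j ≠ 0 := by positivity
  have hlog : Nat.log 2 (2 ^ k + j) = k :=
    (Nat.log_eq_iff (Or.inr ⟨by norm_num, hne⟩)).2 ⟨by omega, by rw [pow_succ]; omega⟩
  refine ⟨str (2 ^ k + j), by rw [str_length, hlog, hk], ?_⟩
  rw [mem_Gm, str_length, hlog, num_str hne]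
  refine ⟨s, num y, ?_, str_num y⟩
  rw [← hk, show 2 ^ k + j - 2 ^ k = j by omega, List.getElem?_eq_getElem hj, hji]

lemma primrec_lst : Primrec₂ (lst cw) := by
  classical
  have h : Primrec fun p : ℕ × ℕ => (Nat.rec [] (fun s L => L ++ (List.range (2 ^ (p.1 + 1))).filter
      (fun i => decide (2 ^ p.1 ≤ i ∧ Dn cw s i = true ∧ i ∉ L))) p.2 : List ℕ) := by
    refine Primrec.nat_rec' (f := fun p : ℕ × ℕ => p.2) (g := fun _ => ([] : List ℕ))
      (h := fun (p : ℕ × ℕ) (q : ℕ × List ℕ) => q.2 ++ (List.range (2 ^ (p.1 + 1))).filter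
      (fun i => decide (2 ^ p.1 ≤ i ∧ Dn cw q.1 i = true ∧ i ∉ q.2))) Primrec.snd
      (Primrec.const []) ?_
    refine Primrec.list_append.comp (Primrec.snd.comp Primrec.snd) ?_
    refine PP.filter (p := fun (a : (ℕ × ℕ) × (ℕ × List ℕ)) i => 2 ^ a.1.1 ≤ i ∧
      Dn cw a.2.1 i = true ∧ i ∉ a.2.2) (Primrec.list_range.comp (primrec_pow2
        (Primrec.succ.comp (Primrec.fst.comp Primrec.fst)))) ?_
    refine (PP.le (primrec_pow2 (Primrec.fst.comp (Primrec.fst.comp Primrec.fst)))
      Primrec.snd).and (PrimrecPred.and ?_ ?_)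
    · exact PP.eq (Primrec.option_isSome.comp (primrec_evaln'
        (Primrec.fst.comp (Primrec.snd.comp Primrec.fst)) (Primrec.const cw)
        (Primrec.encode.comp (primrec_str.comp Primrec.snd)))) (Primrec.const true)
    · refine PrimrecPred.not ?_
      have : PrimrecPred fun a : ((ℕ × ℕ) × (ℕ × List ℕ)) × ℕ => ∃ j ∈ a.1.2.2, j = a.2 :=
        PP.exists_mem (L := fun a : ((ℕ × ℕ) × (ℕ × List ℕ)) × ℕ => a.1.2.2)
          (p := fun a j => j = a.2) (Primrec.snd.comp (Primrec.snd.comp Primrec.fst))
          (PP.eq Primrec.snd (Primrec.snd.comp Primrec.fst))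
      exact this.of_eq fun a => by simp
  refine h.of_eq fun p => ?_
  rcases p with ⟨m, s⟩
  simp only
  induction s with
  | zero => rfl
  | succ s ih =>
    simp only [ih]
    rw [lst]

lemma partrec_Gm : Partrec (Gm cw) := by
  unfold Gm
  refine Partrec.map (Partrec.rfindOpt ?_) (primrec_str.comp Primrec.snd).to_comp.to₂
  refine Primrec₂.to_comp ?_
  refine Primrec.list_getElem?.comp (primrec_lst.comp (Primrec.nat_add.comp
    (Primrec.list_length.comp Primrec.fst) (Primrec.const 2)) Primrec.snd) ?_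
  exact Primrec.nat_sub.comp (primrec_num.comp Primrec.fst)
    (primrec_pow2 (Primrec.list_length.comp Primrec.fst))

end Short

/-! ### the universal machine -/

/-- number of leading ones -/
def ones (w : List Bool) : ℕ := (w.takeWhile id).length

/-- `Vm (1^k 0 p)` runs program number `k` on the string `p` -/
def Vm (w : List Bool) : Part (List Bool) :=
  ((ofNat Code (ones w)).eval (encode (w.drop (ones w + 1)))).bind
    fun r => (decode (α := List Bool) r : Part (List Bool))

lemma ones_replicate (k : ℕ) (p : List Bool) :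
    ones (List.replicate k true ++ false :: p) = k := by
  unfold ones
  induction k with
  | zero => simp
  | succ k ih => simp [List.replicate_succ] at ih ⊢

lemma drop_replicate (k : ℕ) (p : List Bool) :
    (List.replicate k true ++ false :: p).drop (k + 1) = p := by
  rw [List.drop_append]
  simp

lemma Vm_replicate (k : ℕ) (p : List Bool) : Vm (List.replicate k true ++ false :: p) =
    ((ofNat Code k).eval (encode p)).bind
      fun r => (decode (α := List Bool) r : Part (List Bool)) := by
  unfold Vm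
  rw [ones_replicate, drop_replicate]

lemma primrec_ones : Primrec ones :=
  Primrec.list_length.comp (Primrec.list_takeWhile Primrec.id)

lemma partrec_Vm : Partrec Vm := by
  unfold Vm
  refine Partrec.bind (Code.eval_part.comp ((Primrec.ofNat Code).comp primrec_ones).to_comp ?_) ?_
  · exact (Primrec.encode.comp (Primrec.list_drop.comp (Primrec.succ.comp primrec_ones)
      Primrec.id)).to_comp
  · exact Computable.ofOption (Primrec.decode.comp Primrec.snd).to_comp

/-- code of a partial recursive function on strings -/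
lemma exists_code_str {M : List Bool →. List Bool} (hM : Partrec M) :
    ∃ c : Code, ∀ p, (c.eval (encode p)).bind
      (fun r => (decode (α := List Bool) r : Part (List Bool))) = M p := by
  obtain ⟨c, hc⟩ := Code.exists_code.1 hM
  refine ⟨c, fun p => ?_⟩
  rw [hc]
  simp only [encodek, Part.coe_some, Part.bind_some]
  apply Part.ext
  intro y
  rw [Part.mem_bind_iff]
  constructor
  · rintro ⟨r, hr, hy⟩
    rw [Part.mem_map_iff] at hr
    obtain ⟨z, hz, rfl⟩ := hr
    rw [encodek] at hy
    simp only [Part.coe_some, Part.mem_some_iff] at hy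
    rw [hy]; exact hz
  · intro hy
    exact ⟨encode y, Part.mem_map _ hy, by rw [encodek]; simp⟩

/-! ### plain complexity -/

lemma mem_RC {U : List Bool →. List Bool} {σ : List Bool} :
    σ ∈ RC U ↔ ¬ ∃ p : List Bool, p.length < σ.length ∧ σ ∈ U p := by
  unfold RC Cx
  rw [Set.mem_ofPred_eq, le_iInf_iff]
  constructor
  · rintro h ⟨p, hp, hU⟩
    have := h p
    rw [le_iInf_iff] at this
    have := this hU
    rw [Nat.cast_le] at this
    omega
  · intro h p
    rw [le_iInf_iff]
    intro hU
    rw [Nat.cast_le]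
    by_contra hcon
    exact h ⟨p, by omega, hU⟩

end Pool.Agent.LibRandTT
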