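import Mathlib
import Pool.Agent.LibRandTT.Machine

/-!
The universal machine `U` and the final argument.
-/

namespace Pool.Agent.LibRandTT

open Nat.Partrec Encodable Denumerable

/-- compressible strings of the universal machine `Vm`, with a gap of five bits -/
def NV0 (y : List Bool) : Prop := ∃ p : List Bool, p.length + 5 < y.length ∧ y ∈ Vm p

lemma exists_code_re {p : List Bool → Prop} (hp : REPred p) : ∃ c : Code, ∀ y, NV c y ↔ p y := by
  obtain ⟨c, hc⟩ := Code.exists_code.1 hp
  refine ⟨c, fun y => ?_⟩
  unfold NV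
  rw [hc]
  simp only [encodek, Part.coe_some, Part.bind_some]
  exact ⟨fun h => h.1, fun h => ⟨h, trivial⟩⟩

lemma exists_code_fun {α β : Type} [Primcodable α] [Primcodable β] {f : α → β}
    (hf : Computable f) : ∃ c : Code, ∀ a, encode (f a) ∈ c.eval (encode a) := by
  obtain ⟨c, hc⟩ := Code.exists_code.1 hf
  refine ⟨c, fun a => ?_⟩
  rw [hc]
  simp

lemma mem_Vm_bounded {p y : List Bool} : y ∈ Vm p ↔
    ∃ s, (Code.evaln s (ofNat Code (ones p)) (encode (p.drop (ones p + 1)))).bind
      (fun r => decode (α := List Bool) r) = some y := by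
  unfold Vm
  rw [Part.mem_bind_iff]
  constructor
  · rintro ⟨r, hr, hy⟩
    obtain ⟨s, hs⟩ := Code.evaln_complete.1 hr
    refine ⟨s, ?_⟩
    rw [Option.mem_def] at hs
    rw [hs]
    simpa using hy
  · rintro ⟨s, hs⟩
    rw [Option.bind_eq_some_iff] at hs
    obtain ⟨r, hr, hy⟩ := hs
    exact ⟨r, Code.evaln_sound hr, by simpa using hy⟩

lemma NV0_re : REPred NV0 := by
  have h : REPred fun y : List Bool => ∃ n : ℕ, (str n.unpair.1).length + 5 < y.length ∧
      (Code.evaln n.unpair.2 (ofNat Code (ones (str n.unpair.1)))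
        (encode ((str n.unpair.1).drop (ones (str n.unpair.1) + 1)))).bind
      (fun r => decode (α := List Bool) r) = some y := by
    apply rePred_of_exists
    have hp : Primrec fun a : List Bool × ℕ => str a.2.unpair.1 :=
      primrec_str.comp (Primrec.fst.comp (Primrec.unpair.comp Primrec.snd))
    refine (PP.lt (Primrec.nat_add.comp (Primrec.list_length.comp hp) (Primrec.const 5))
      (Primrec.list_length.comp Primrec.fst)).and (PP.eq ?_ (Primrec.option_some.comp Primrec.fst))
    refine Primrec.option_bind (primrec_evaln' (Primrec.snd.comp (Primrec.unpair.comp Primrec.snd))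
      ((Primrec.ofNat Code).comp (primrec_ones.comp hp)) (Primrec.encode.comp
      (Primrec.list_drop.comp (Primrec.succ.comp (primrec_ones.comp hp)) hp))) ?_
    exact (Primrec.decode.comp Primrec.snd)
  refine h.of_eq fun y => ?_
  unfold NV0
  constructor
  · rintro ⟨n, h1, h2⟩
    exact ⟨_, h1, mem_Vm_bounded.2 ⟨_, h2⟩⟩
  · rintro ⟨p, h1, h2⟩
    obtain ⟨s, hs⟩ := mem_Vm_bounded.1 h2
    refine ⟨Nat.pair (num p) s, ?_, ?_⟩
    · simpa using h1
    · simpa using hs

lemma NV0_count (m : ℕ) (S : Finset (List Bool)) (hS : ∀ y ∈ S, y.length = m ∧ NV0 y) :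
    32 * S.card ≤ 2 ^ m := by
  classical
  rcases Nat.lt_or_ge 5 m with hm | hm
  · obtain ⟨k, rfl⟩ : ∃ k, m = k + 5 := ⟨m - 5, by omega⟩
    have h : ∀ y ∈ S, ∃ p : List Bool, p.length < k ∧ y ∈ Vm p := by
      intro y hy
      obtain ⟨h1, p, h2, h3⟩ := hS y hy
      exact ⟨p, by omega, h3⟩
    choose! f hf using h
    have hinj : Set.InjOn (fun y => num (f y)) S := by
      intro y hy z hz hyz
      have h1 := num_injective hyz
      have h2 := (hf y hy).2
      have h3 := (hf z hz).2
      rw [h1] at h2
      exact Part.mem_unique h2 h3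
    have hmaps : ∀ y ∈ S, num (f y) ∈ Finset.range (2 ^ k) := by
      intro y hy
      rw [Finset.mem_range]
      have h1 := (num_bounds (f y)).2
      have h2 : 2 ^ ((f y).length + 1) ≤ 2 ^ k :=
        Nat.pow_le_pow_right (by norm_num) (hf y hy).1
      omega
    have := Finset.card_le_card_of_injOn _ hmaps hinj
    rw [Finset.card_range] at this
    have e : 2 ^ (k + 5) = 32 * 2 ^ k := by ring
    omega
  · have : S = ∅ := by
      rw [Finset.eq_empty_iff_forall_notMem]
      intro y hy
      obtain ⟨h1, p, h2, -⟩ := hS y hy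
      omega
    rw [this]
    simp

/-- the `j`-th query of a coded query function, from the concatenation of `x` and `j` -/
def Fq (a : ℕ × List Bool) : Part (List Bool) :=
  ((ofNat Code a.1).eval (encode (a.2.take (a.2.length / 2)))).bind fun r =>
    (((decode (α := List (List Bool)) r).bind fun Q =>
      Q[num (a.2.drop (a.2.length / 2)) - 2 ^ (a.2.length / 2)]? : Option (List Bool)) :
        Part (List Bool))

lemma partrec_Fq : Partrec Fq := by
  unfold Fq
  have hw : Primrec fun a : ℕ × List Bool => a.2.length / 2 :=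
    Primrec.nat_div.comp (Primrec.list_length.comp Primrec.snd) (Primrec.const 2)
  refine Partrec.bind (Code.eval_part.comp ((Primrec.ofNat Code).comp Primrec.fst).to_comp ?_) ?_
  · exact (Primrec.encode.comp (Primrec.list_take.comp hw Primrec.snd)).to_comp
  · refine Computable.ofOption ?_
    refine Primrec.to_comp ?_
    refine Primrec.option_bind (Primrec.decode.comp Primrec.snd) ?_
    refine Primrec.list_getElem?.comp Primrec.snd ?_
    have h1 : Primrec fun p : ((ℕ × List Bool) × ℕ) × List (List Bool) => p.1.1.2 :=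
      Primrec.snd.comp (Primrec.fst.comp Primrec.fst)
    have h2 : Primrec fun p : ((ℕ × List Bool) × ℕ) × List (List Bool) => p.1.1.2.length / 2 :=
      Primrec.nat_div.comp (Primrec.list_length.comp h1) (Primrec.const 2)
    exact Primrec.nat_sub.comp (primrec_num.comp (Primrec.list_drop.comp h2 h1))
      (primrec_pow2 h2)

lemma exists_cfix : ∃ c : Code, ∀ k (w : List Bool),
    c.eval (Nat.pair k (encode w)) = (Fq (k, w)).map encode := by
  obtain ⟨c, hc⟩ := Code.exists_code.1 partrec_Fq
  refine ⟨c, fun k w => ?_⟩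
  rw [hc]
  have : Nat.pair k (encode w) = encode (k, w) := by
    rw [Encodable.encode_prod_val]; rfl
  rw [this]
  simp only [encodek, Part.coe_some, Part.bind_some]

/-- the fixed code of `Fq` -/
noncomputable def cfix : Code := exists_cfix.choose

lemma cfix_spec (k : ℕ) (w : List Bool) :
    cfix.eval (Nat.pair k (encode w)) = (Fq (k, w)).map encode := exists_cfix.choose_spec k w

/-- overhead function -/
noncomputable def Bf (e : ℕ) : ℕ := encode (Code.curry cfix (encode (cq e))) + 6

lemma primrec_Bf : Primrec Bf :=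
  Primrec.nat_add.comp (Primrec.encode.comp (Code.primrec₂_curry.comp (Primrec.const cfix)
    (Primrec.encode.comp primrec_cq))) (Primrec.const 6)

/-- long queries are compressible -/
lemma long_compressible {e n : ℕ} {q : List Bool → List (List Bool)}
    (hq : ∀ x, encode (q x) ∈ (cq e).eval (encode x)) {x y : List Bool} (hx : x.length = n)
    (hlen : (q x).length ≤ 2 ^ n) (hy : y ∈ q x) (hlong : 2 * n + Bf e < y.length) : NV0 y := by
  obtain ⟨j, hj, hjy⟩ := List.getElem_of_mem hy
  have hne : 2 ^ n + j ≠ 0 := by positivity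
  have hlog : Nat.log 2 (2 ^ n + j) = n :=
    (Nat.log_eq_iff (Or.inr ⟨by norm_num, hne⟩)).2 ⟨by omega, by rw [pow_succ]; omega⟩
  set z := str (2 ^ n + j) with hz
  have hzl : z.length = n := by rw [hz, str_length, hlog]
  refine ⟨List.replicate (encode (Code.curry cfix (encode (cq e)))) true ++ false :: (x ++ z),
    ?_, ?_⟩
  · simp only [List.length_append, List.length_replicate, List.length_cons, hx, hzl]
    unfold Bf at hlong
    omega
  · rw [Vm_replicate, ofNat_encode, Code.eval_curry, cfix_spec]
    have hhalf : (x ++ z).length / 2 = n := by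
      rw [List.length_append, hx, hzl]; omega
    have htake : (x ++ z).take n = x := by
      rw [← hx]; simp
    have hdrop : (x ++ z).drop n = z := by
      rw [← hx]; simp
    have hF : y ∈ Fq (encode (cq e), x ++ z) := by
      unfold Fq
      simp only [hhalf, htake, hdrop, ofNat_encode]
      rw [Part.mem_bind_iff]
      refine ⟨_, hq x, ?_⟩
      rw [encodek]
      simp only [Option.bind_some]
      rw [hz, num_str hne, show 2 ^ n + j - 2 ^ n = j by omega, List.getElem?_eq_getElem hj, hjy]
      simp
    rw [Part.mem_bind_iff]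
    exact ⟨encode y, Part.mem_map _ hF, by rw [encodek]; simp⟩

/-- the machine: `00000 p` runs `Vm`, `1 p` runs `Gm` -/
noncomputable def Um (cw : Code) (w : List Bool) : Part (List Bool) :=
  cond (decide (w.take 5 = List.replicate 5 false)) (Vm (w.drop 5))
    (cond (decide (w.head? = some true)) (Gm cw w.tail) Part.none)

lemma partrec_Um (cw : Code) : Partrec (Um cw) := by
  unfold Um
  refine Partrec.cond ?_ (partrec_Vm.comp (Primrec.list_drop.comp (Primrec.const 5)
    Primrec.id).to_comp) (Partrec.cond ?_ (partrec_Gm.comp Primrec.list_tail.to_comp) Partrec.none)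
  · exact (PP.eq (Primrec.list_take.comp (Primrec.const 5) Primrec.id)
      (Primrec.const _)).decide.to_comp
  · exact (PP.eq Primrec.list_head? (Primrec.const _)).decide.to_comp

lemma Um_zeros (cw : Code) (p : List Bool) : Um cw (List.replicate 5 false ++ p) = Vm p := by
  unfold Um
  have h1 : (List.replicate 5 false ++ p).take 5 = List.replicate 5 false := by
    rw [List.take_append]; simp
  have h2 : (List.replicate 5 false ++ p).drop 5 = p := by
    rw [List.drop_append]; simp
  rw [h1, h2]
  simp

lemma Um_one (cw : Code) (p : List Bool) : Um cw (true :: p) = Gm cw p := by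
  unfold Um
  simp [List.replicate]

lemma mem_Um {cw : Code} {w y : List Bool} (h : y ∈ Um cw w) :
    (∃ p, w = List.replicate 5 false ++ p ∧ y ∈ Vm p) ∨ (∃ p, w = true :: p ∧ y ∈ Gm cw p) := by
  unfold Um at h
  by_cases h1 : w.take 5 = List.replicate 5 false
  · left
    rw [h1] at h
    simp only [decide_true, cond_true] at h
    refine ⟨w.drop 5, ?_, h⟩
    rw [← h1, List.take_append_drop]
  · simp only [h1, decide_false, cond_false] at h
    by_cases h2 : w.head? = some true
    · right
      simp only [h2, decide_true, cond_true] at h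
      refine ⟨w.tail, ?_, h⟩
      cases w with
      | nil => simp at h2
      | cons b w => simp at h2; simp [h2]
    · simp only [h2, decide_false, cond_false] at h
      exact absurd h (Part.notMem_none y)

lemma Um_universal (cw : Code) : Universal (Um cw) := by
  refine ⟨partrec_Um cw, fun M hM => ?_⟩
  obtain ⟨c, hc⟩ := exists_code_str hM
  refine ⟨List.replicate 5 false ++ (List.replicate (encode c) true ++ [false]), fun p => ?_⟩
  rw [List.append_assoc, Um_zeros, List.append_assoc, List.singleton_append, Vm_replicate,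
    ofNat_encode, hc]

lemma nonrandom_Um {cw : Code} (hW : ∀ m (S : Finset (List Bool)),
    (∀ y ∈ S, y.length = m ∧ NV cw y) → 4 * S.card ≤ 2 ^ m) (y : List Bool) :
    y ∈ RC (Um cw) ↔ ¬ (NV0 y ∨ NV cw y) := by
  rw [mem_RC]
  apply not_congr
  constructor
  · rintro ⟨w, hw, hy⟩
    rcases mem_Um hy with ⟨p, rfl, hp⟩ | ⟨p, rfl, hp⟩
    · left
      refine ⟨p, ?_, hp⟩
      simp only [List.length_append, List.length_replicate] at hw
      omega
    · right
      exact (Gm_sound hp).1
  · rintro (⟨p, hp, hy⟩ | h)
    · refine ⟨List.replicate 5 false ++ p, ?_, by rw [Um_zeros]; exact hy⟩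
      simp only [List.length_append, List.length_replicate]
      omega
    · obtain ⟨p, hp, hy⟩ := Gm_complete hW h
      refine ⟨true :: p, ?_, by rw [Um_one]; exact hy⟩
      simp only [List.length_cons]
      omega

lemma mem_Halt {k : ℕ} {x : List Bool} : List.replicate k true ++ false :: x ∈ Halt ↔
    ((ofNat Code k).eval (encode x)).Dom := by
  constructor
  · rintro ⟨k', x', h, hd⟩
    have h1 := congrArg ones h
    rw [ones_replicate, ones_replicate] at h1
    subst h1
    have h2 := congrArg (List.drop (k + 1)) h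
    rw [drop_replicate, drop_replicate] at h2
    rw [h2]
    exact hd
  · intro h
    exact ⟨k, x, rfl, h⟩

lemma a0_ge (B : ℕ → ℕ) (e : ℕ) : e + 100 ≤ a0 B e := by
  induction e with
  | zero => simp [a0]
  | succ e ih =>
    have := a0_lt_a1 B e
    unfold a1 at this
    omega

open Classical in
theorem main : ∃ U : List Bool →. List Bool, Universal U ∧
    ∀ (q : List Bool → List (List Bool)) (g : List Bool → List Bool → Bool),
      TTReduction q g Halt (RC U) →
      ∃ C : ℕ, ∀ n₀ : ℕ, ∃ x : List Bool, n₀ ≤ x.length ∧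
        2 ^ x.length ≤ C * (q x).length ^ 2 := by
  obtain ⟨c, hc⟩ := exists_code_re NV0_re
  obtain ⟨cw, hcw⟩ := exists_code_re (Wset_re (c := c) primrec_Bf)
  obtain ⟨ch, hch⟩ := exists_code_re (Hset_re (c := c) primrec_Bf)
  have hNV : ∀ m (S : Finset (List Bool)), (∀ y ∈ S, y.length = m ∧ NV c y) →
      32 * S.card ≤ 2 ^ m := fun m S hS =>
    NV0_count m S fun y hy => ⟨(hS y hy).1, (hc y).1 (hS y hy).2⟩
  have hW : ∀ m (S : Finset (List Bool)), (∀ y ∈ S, y.length = m ∧ NV cw y) →
      4 * S.card ≤ 2 ^ m := fun m S hS =>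
    W_count m S fun y hy => ⟨(hS y hy).1, (hcw y).1 (hS y hy).2⟩
  refine ⟨Um cw, Um_universal cw, ?_⟩
  rintro q g ⟨hqc, hgc, hred⟩
  set i := encode ch with hi
  by_contra hcon
  push Not at hcon
  obtain ⟨n₀, hn₀⟩ := hcon (2 ^ (i + 20))
  -- the induced reduction of the constructed set
  set tr : List Bool → List Bool := fun x => List.replicate i true ++ false :: x with htr
  have htrc : Computable tr := by
    have : Primrec tr := Primrec.list_append.comp (Primrec.const _)
      (Primrec.list_cons.comp (Primrec.const false) Primrec.id)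
    exact this.to_comp
  have htrlen : ∀ x, (tr x).length = x.length + i + 1 := by
    intro x
    simp only [htr, List.length_append, List.length_replicate, List.length_cons]
    omega
  set q' : List Bool → List (List Bool) := fun x => q (tr x) with hq'
  set g' : List Bool → List Bool → Bool := fun x a => g (tr x) a with hg'
  have hq'c : Computable q' := hqc.comp htrc
  have hg'c : Computable₂ g' := hgc.comp (htrc.comp Computable.fst) Computable.snd
  obtain ⟨c1, hc1⟩ := exists_code_fun hq'c
  obtain ⟨c2, hc2⟩ := exists_code_fun (f := fun p : List Bool × List Bool => g' p.1 p.2) hg'c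
  set e := Nat.pair (encode c1) (Nat.pair (encode c2) (n₀ + i)) with he
  have hcqe : cq e = c1 := by simp [cq, he]
  have hcge : cg e = c2 := by simp [cg, he]
  have hq1 : ∀ x, encode (q' x) ∈ (cq e).eval (encode x) := by
    intro x
    rw [hcqe]
    exact hc1 x
  have hg1 : ∀ x ans, encode (g' x ans) ∈ (cg e).eval (encode (x, ans)) := by
    intro x ans
    rw [hcge]
    exact hc2 (x, ans)
  have hage : n₀ + i + 100 ≤ a0 Bf e := by
    have h1 := a0_ge Bf e
    have h2 : n₀ + i ≤ e := by
      rw [he]
      exact (Nat.right_le_pair _ _).trans (Nat.right_le_pair _ _)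
    omega
  set a := a0 Bf e with ha
  have hqb : ∀ x : List Bool, x.length = a + 4 → (q' x).length ≤ Nat.sqrt (2 ^ (a - 9)) := by
    intro x hx
    have h1 := hn₀ (tr x) (by rw [htrlen]; omega)
    rw [htrlen, hx] at h1
    rw [Nat.le_sqrt']
    have e1 : 2 ^ (a + 4 + i + 1) = 2 ^ (i + 20) * 2 ^ (a - 15) := by
      rw [← pow_add]; congr 1; omega
    rw [e1] at h1
    have h2 := Nat.lt_of_mul_lt_mul_left h1
    have h3 : 2 ^ (a - 15) ≤ 2 ^ (a - 9) := Nat.pow_le_pow_right (by norm_num) (by omega)
    exact (h2.le).trans h3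
  have hqb1 : 1 ≤ Nat.sqrt (2 ^ (a - 9)) := by
    rw [Nat.le_sqrt']
    simpa using Nat.one_le_two_pow
  have h512 : 512 * (Nat.sqrt (2 ^ (a - 9))) ^ 2 ≤ 2 ^ a := by
    have h1 := Nat.sqrt_le' (2 ^ (a - 9))
    have e1 : 2 ^ a = 512 * 2 ^ (a - 9) := by
      rw [show (512 : ℕ) = 2 ^ 9 by norm_num, ← pow_add]; congr 1; omega
    rw [e1]
    exact Nat.mul_le_mul_left _ h1
  have hlong : ∀ x : List Bool, x.length = a + 4 → ∀ y ∈ q' x, a1 Bf e < y.length → NV c y := by
    intro x hx y hy hly
    rw [hc]
    refine long_compressible (e := e) (n := a + 4) hq1 hx ?_ hy ?_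
    · refine (hqb x hx).trans ?_
      calc Nat.sqrt (2 ^ (a - 9)) ≤ 2 ^ (a - 9) := Nat.sqrt_le_self _
        _ ≤ 2 ^ (a + 4) := Nat.pow_le_pow_right (by norm_num) (by omega)
    · have : a1 Bf e = 2 * (a + 4) + Bf e := rfl
      omega
  obtain ⟨x, hx, hfail⟩ := requirement (B := Bf) (c := c) hNV hqb1 h512 hqb hq1 hg1 hlong
  have hfail' : g' x ((q' x).map (fun y => decide (¬ (NV c y ∨ Wset Bf c y)))) =
      !(decide (Hset Bf c x)) := hfail _ _
  have hH : Hset Bf c x ↔ tr x ∈ Halt := by
    rw [← hch, htr]
    simp only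
    rw [mem_Halt, hi, ofNat_encode]
    rfl
  have hr := hred (tr x)
  have hmap : (q' x).map (fun y => decide (¬ (NV c y ∨ Wset Bf c y))) =
      (q (tr x)).map (fun y => decide (y ∈ RC (Um cw))) := by
    apply List.map_congr_left
    intro y _
    have h1 : y ∈ RC (Um cw) ↔ ¬ (NV c y ∨ Wset Bf c y) := by
      rw [nonrandom_Um hW, hcw, hc]
    exact decide_eq_decide.2 h1.symm
  rw [← hmap, ← hH] at hr
  by_cases hx1 : Hset Bf c x
  · have h1 := hr.1 hx1
    have h2 : g' x ((q' x).map fun y => decide (¬ (NV c y ∨ Wset Bf c y))) = false := by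
      rw [hfail']
      simp [hx1]
    rw [hg'] at h2
    simp only at h2
    rw [h1] at h2
    exact absurd h2 (by simp)
  · apply hx1
    apply hr.2
    have h2 : g' x ((q' x).map fun y => decide (¬ (NV c y ∨ Wset Bf c y))) = true := by
      rw [hfail']
      simp [hx1]
    exact h2

end Pool.Agent.LibRandTT
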